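import Mathlib

/-!
# Polynomials given by their coefficients (module IV)
-/

namespace Pool.Agent.Lib.MP_ec260d_ntB

noncomputable section

/-- the value at `y` of the polynomial with the coefficients `c` -/
def ev {k D : ℕ} (c : (Fin k → Fin (D + 1)) → ℂ) (y : Fin k → ℝ) : ℂ :=
  ∑ α : Fin k → Fin (D + 1), c α * ∏ i : Fin k, ((y i : ℝ) : ℂ) ^ (α i : ℕ)

/-- the square of the norm of the coefficients -/
def nr {k D : ℕ} (c : (Fin k → Fin (D + 1)) → ℂ) : ℝ := ∑ α, ‖c α‖ ^ 2

/-- the coefficients at the base point `t` -/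
def qe {k D : ℕ} (q : (Fin k → Fin (D + 1)) → Polynomial ℂ) (t : ℝ) : (Fin k → Fin (D + 1)) → ℂ :=
  fun α => (q α).eval (t : ℂ)

/-- the position (in mean spacings) of the `i`-th point for the gaps `v` -/
def pos {k : ℕ} (v : Fin k → ℝ) (i : Fin (k + 1)) : ℝ :=
  ∑ l : Fin k, if (l : ℕ) < (i : ℕ) then v l else 0

end

end Pool.Agent.Lib.MP_ec260d_ntB
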