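import Mathlib
import Pool.Agent.Lib.MP_ec260d_ntB.Q.QDefs

/-!
# JOB Q/PolyNull: the zero set of a nonzero polynomial is a null set (about 120 lines)

Induction on `k`.  `k = 0`: the only index is the empty function `α₀`, `ev c y = c α₀ ≠ 0`, the set is empty.
`k + 1`: write `y = (y_0, y')` (`Fin.cons`, measurable equivalence `MeasurableEquiv.piFinSuccAbove (fun _ => ℝ) 0`, measure preserving: `volume_preserving_piFinSuccAbove`).  `ev c y = ∑_{a ≤ D} y_0^a * ev (c_a) y'` with `c_a α' = c (Fin.cons a α')`.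
Some `c_a ≠ 0`.  For `y'` outside of the null set `{ev c_a y' = 0}` (induction) the polynomial `∑_a y_0^a ev (c_a) y'` in `y_0` is nonzero, so it has finitely many roots `y_0`.  By Fubini (`MeasureTheory.measure_prod_null` or `Measure.measure_prod_null_of_ae_null`) the set is null.  It is closed (continuous function), hence measurable.
(Any other proof is fine, e.g. through a theorem of Mathlib on zero sets of analytic functions or of `MvPolynomial`.)
-/

namespace Pool.Agent.Lib.MP_ec260d_ntB

open MeasureTheory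

private theorem PolyNull_cont {k D : ℕ} (c : (Fin k → Fin (D + 1)) → ℂ) :
    Continuous (ev c) := by
  unfold ev
  fun_prop

private theorem PolyNull_cons {k D : ℕ} (c : (Fin (k + 1) → Fin (D + 1)) → ℂ) (a : ℝ)
    (y : Fin k → ℝ) : ev c (Fin.cons a y : Fin (k + 1) → ℝ) =
      ∑ j : Fin (D + 1), ev (fun α => c (Fin.cons j α : Fin (k + 1) → Fin (D + 1))) y *
        (a : ℂ) ^ (j : ℕ) := by
  unfold ev
  rw [← (Fin.consEquiv fun _ : Fin (k + 1) => Fin (D + 1)).sum_comp, Fintype.sum_prod_type]
  refine Finset.sum_congr rfl fun j _ => ?_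
  rw [Finset.sum_mul]
  refine Finset.sum_congr rfl fun α _ => ?_
  have h1 : (Fin.consEquiv fun _ : Fin (k + 1) => Fin (D + 1)) (j, α) =
      (Fin.cons j α : Fin (k + 1) → Fin (D + 1)) := rfl
  rw [h1, Fin.prod_univ_succ]
  simp only [Fin.cons_zero, Fin.cons_succ]
  ring

private theorem PolyNull_fin {k D : ℕ} (c : (Fin (k + 1) → Fin (D + 1)) → ℂ) (y : Fin k → ℝ)
    (j : Fin (D + 1)) (h : ev (fun α => c (Fin.cons j α : Fin (k + 1) → Fin (D + 1))) y ≠ 0) :
    {a : ℝ | ev c (Fin.cons a y : Fin (k + 1) → ℝ) = 0}.Finite := by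
  classical
  obtain ⟨P, hP⟩ : ∃ P : Polynomial ℂ, P = ∑ j : Fin (D + 1), Polynomial.monomial (j : ℕ)
      (ev (fun α => c (Fin.cons j α : Fin (k + 1) → Fin (D + 1))) y) := ⟨_, rfl⟩
  have hP0 : P ≠ 0 := by
    intro h0
    apply h
    have h1 : P.coeff (j : ℕ) = ev (fun α => c (Fin.cons j α : Fin (k + 1) → Fin (D + 1))) y := by
      rw [hP, Polynomial.finsetSum_coeff, Finset.sum_eq_single j]
      · rw [Polynomial.coeff_monomial, if_pos rfl]
      · intro i _ hij
        rw [Polynomial.coeff_monomial, if_neg (fun h2 => hij (Fin.ext h2))]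
      · intro h2
        exact absurd (Finset.mem_univ j) h2
    rw [← h1, h0, Polynomial.coeff_zero]
  have hfin : {z : ℂ | P.eval z = 0}.Finite := by
    refine (P.rootSet_finite ℂ).subset fun z hz => ?_
    rw [Polynomial.mem_rootSet]
    refine ⟨hP0, ?_⟩
    rw [Polynomial.coe_aeval_eq_eval]
    exact hz
  refine (hfin.preimage (f := fun a : ℝ => (a : ℂ)) Complex.ofReal_injective.injOn).subset ?_
  intro a ha
  change P.eval (a : ℂ) = 0
  rw [hP, Polynomial.eval_finsetSum, ← (ha : ev c (Fin.cons a y : Fin (k + 1) → ℝ) = 0),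
    PolyNull_cons]
  exact Finset.sum_congr rfl fun i _ => by rw [Polynomial.eval_monomial]

theorem poly_null (k D : ℕ) (c : (Fin k → Fin (D + 1)) → ℂ) (hc : c ≠ 0) :
    volume {y : Fin k → ℝ | ev c y = 0} = 0 := by
  induction k with
  | zero =>
    obtain ⟨α, hα⟩ : ∃ α, c α ≠ 0 := by
      by_contra h
      push Not at h
      exact hc (funext h)
    have h1 : {y : Fin 0 → ℝ | ev c y = 0} = ∅ := by
      rw [Set.eq_empty_iff_forall_notMem]
      intro y hy
      have h2 : ev c y = 0 := hy
      apply hα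
      unfold ev at h2
      rw [Fintype.sum_subsingleton _ α, Finset.univ_eq_empty, Finset.prod_empty, mul_one] at h2
      exact h2
    rw [h1, measure_empty]
  | succ k ih =>
    obtain ⟨α, hα⟩ : ∃ α, c α ≠ 0 := by
      by_contra h
      push Not at h
      exact hc (funext h)
    have hcj : (fun β => c (Fin.cons (α 0) β : Fin (k + 1) → Fin (D + 1))) ≠ 0 := by
      intro h
      have h1 := congrFun h (Fin.tail α)
      apply hα
      rw [← Fin.cons_self_tail α]
      exact h1
    have hae := ih _ hcj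
    have hcont : Continuous fun p : (Fin k → ℝ) × ℝ =>
        ev c (Fin.cons p.2 p.1 : Fin (k + 1) → ℝ) := by
      refine (PolyNull_cont c).comp ?_
      refine continuous_pi fun i => ?_
      refine Fin.cases ?_ (fun i => ?_) i
      · exact continuous_snd
      · exact (continuous_apply i).comp continuous_fst
    have hmeas : MeasurableSet {p : (Fin k → ℝ) × ℝ |
        ev c (Fin.cons p.2 p.1 : Fin (k + 1) → ℝ) = 0} :=
      (isClosed_eq hcont continuous_const).measurableSet
    have hT : (volume : Measure (Fin k → ℝ)).prod (volume : Measure ℝ)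
        {p : (Fin k → ℝ) × ℝ | ev c (Fin.cons p.2 p.1 : Fin (k + 1) → ℝ) = 0} = 0 := by
      rw [Measure.measure_prod_null hmeas]
      have h1 : ∀ᵐ y : Fin k → ℝ, ev (fun β => c (Fin.cons (α 0) β :
          Fin (k + 1) → Fin (D + 1))) y ≠ 0 := by
        rw [ae_iff]
        simpa using hae
      filter_upwards [h1] with y hy
      exact (PolyNull_fin c y (α 0) hy).measure_zero _
    have hsw := (Measure.measurePreserving_swap (μ := (volume : Measure ℝ))
      (ν := (volume : Measure (Fin k → ℝ)))).measure_preimage hmeas.nullMeasurableSet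
    rw [hT] at hsw
    have hmeas2 : MeasurableSet (Prod.swap ⁻¹' {p : (Fin k → ℝ) × ℝ |
        ev c (Fin.cons p.2 p.1 : Fin (k + 1) → ℝ) = 0} : Set (ℝ × (Fin k → ℝ))) :=
      measurable_swap hmeas
    have hpi := (volume_preserving_piFinSuccAbove (fun _ : Fin (k + 1) => ℝ) 0).measure_preimage
      hmeas2.nullMeasurableSet
    have hset : {y : Fin (k + 1) → ℝ | ev c y = 0} =
        (MeasurableEquiv.piFinSuccAbove (fun _ : Fin (k + 1) => ℝ) 0) ⁻¹'
          (Prod.swap ⁻¹' {p : (Fin k → ℝ) × ℝ |
            ev c (Fin.cons p.2 p.1 : Fin (k + 1) → ℝ) = 0}) := by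
      ext y
      have h2 : (Fin.cons (y 0) (fun i => y (Fin.succAbove 0 i)) : Fin (k + 1) → ℝ) = y := by
        funext i
        refine Fin.cases ?_ (fun i => ?_) i
        · rfl
        · rw [Fin.cons_succ, Fin.zero_succAbove]
      change ev c y = 0 ↔ ev c (Fin.cons (y 0) (fun i => y (Fin.succAbove 0 i)) :
        Fin (k + 1) → ℝ) = 0
      rw [h2]
    rw [hset, hpi]
    exact hsw

end Pool.Agent.Lib.MP_ec260d_ntB
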