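import Mathlib
import Pool.Agent.Lib.MP_ec260d_ntB.Q.PolyLip
import Pool.Agent.Lib.MP_ec260d_ntB.Q.PolyNull

/-!
# JOB Q/PolySmall: uniform bound for sublevel sets (about 150 lines)

By scaling we may assume `nr c = 1` (`ev (a • c) y = a * ev c y`, `nr (a • c) = ‖a‖^2 * nr c`).  Suppose that no `η` works: for each `n` there is `c_n` with `nr c_n = 1` and `volume {‖ev c_n y‖ ≤ 1/(n+1), |y_i| ≤ 2} > ε`.  The set `{nr c = 1}` is compact (closed and bounded in a finite-dimensional space; continuous function `nr`), so along a subsequence `c_n → c`, `nr c = 1`.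
By `poly_lip` (first bound, linear in `c`: `ev c_n y - ev c y = ev (c_n - c) y`) `ev c_n → ev c` uniformly on the cube.  So for each `θ > 0` and large `n` (in the subsequence) `{‖ev c_n y‖ ≤ 1/(n+1)} ⊆ {‖ev c y‖ ≤ θ}` on the cube, hence `volume {|y_i| ≤ 2, ‖ev c y‖ ≤ θ} ≥ ε` for each `θ > 0`.
As `θ ↓ 0` these sets (measurable, finite measure) decrease to `{|y_i| ≤ 2, ev c y = 0}`, which is null by `poly_null`: contradiction (`MeasureTheory.tendsto_measure_iInter...`).
-/

namespace Pool.Agent.Lib.MP_ec260d_ntB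

open MeasureTheory

private theorem PolySmall_sub {k D : ℕ} (c c' : (Fin k → Fin (D + 1)) → ℂ) (y : Fin k → ℝ) :
    ev c y - ev c' y = ev (c - c') y := by
  unfold ev
  rw [← Finset.sum_sub_distrib]
  exact Finset.sum_congr rfl fun α _ => by rw [Pi.sub_apply, sub_mul]

private theorem PolySmall_smul {k D : ℕ} (a : ℂ) (c : (Fin k → Fin (D + 1)) → ℂ)
    (y : Fin k → ℝ) : ev (a • c) y = a * ev c y := by
  unfold ev
  rw [Finset.mul_sum]
  exact Finset.sum_congr rfl fun α _ => by rw [Pi.smul_apply, smul_eq_mul, mul_assoc]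

private theorem PolySmall_nr_smul {k D : ℕ} (a : ℂ) (c : (Fin k → Fin (D + 1)) → ℂ) :
    nr (a • c) = ‖a‖ ^ 2 * nr c := by
  unfold nr
  rw [Finset.mul_sum]
  exact Finset.sum_congr rfl fun α _ => by rw [Pi.smul_apply, smul_eq_mul, norm_mul, mul_pow]

private theorem PolySmall_nr_cont {k D : ℕ} :
    Continuous fun c : (Fin k → Fin (D + 1)) → ℂ => nr c := by
  unfold nr
  exact continuous_finsetSum _ fun α _ => ((continuous_apply α).norm).pow 2

private theorem PolySmall_ev_cont {k D : ℕ} (c : (Fin k → Fin (D + 1)) → ℂ) :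
    Continuous fun y : Fin k → ℝ => ev c y := by
  unfold ev
  refine continuous_finsetSum _ fun α _ => continuous_const.mul ?_
  exact continuous_finsetProd _ fun i _ =>
    (Complex.continuous_ofReal.comp (continuous_apply i)).pow _

private theorem PolySmall_compact (k D : ℕ) :
    IsCompact {c : (Fin k → Fin (D + 1)) → ℂ | nr c = 1} := by
  refine Metric.isCompact_of_isClosed_isBounded
    (isClosed_eq PolySmall_nr_cont continuous_const) ?_
  refine (Metric.isBounded_closedBall (x := (0 : (Fin k → Fin (D + 1)) → ℂ)) (r := 1)).subset ?_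
  intro c hc
  rw [mem_closedBall_zero_iff, pi_norm_le_iff_of_nonneg zero_le_one]
  intro α
  have h1 : ‖c α‖ ^ 2 ≤ 1 := by
    have h2 : nr c = 1 := hc
    rw [← h2]
    unfold nr
    exact Finset.single_le_sum (f := fun α => ‖c α‖ ^ 2) (fun β _ => sq_nonneg _)
      (Finset.mem_univ α)
  nlinarith [norm_nonneg (c α)]

private theorem PolySmall_point (k D : ℕ) (ε : ℝ) (hε : 0 < ε)
    (c : (Fin k → Fin (D + 1)) → ℂ) (hc : c ≠ 0) : ∃ η : ℝ, 0 < η ∧ η < 1 ∧
      volume {y : Fin k → ℝ | (∀ i, |y i| ≤ 2) ∧ ‖ev c y‖ ≤ η} ≤ ENNReal.ofReal ε := by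
  let S : ℕ → Set (Fin k → ℝ) := fun m =>
    {y | (∀ i, |y i| ≤ 2) ∧ ‖ev c y‖ ≤ 1 / ((m : ℝ) + 2)}
  have hcl : ∀ m, IsClosed (S m) := by
    intro m
    have h1 : IsClosed {y : Fin k → ℝ | ∀ i, |y i| ≤ 2} := by
      have h3 : {y : Fin k → ℝ | ∀ i, |y i| ≤ 2} = ⋂ i, {y | |y i| ≤ 2} := by
        ext y
        simp
      rw [h3]
      exact isClosed_iInter fun i => isClosed_le (continuous_apply i).abs continuous_const
    have h2 : IsClosed {y : Fin k → ℝ | ‖ev c y‖ ≤ 1 / ((m : ℝ) + 2)} :=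
      isClosed_le (PolySmall_ev_cont c).norm continuous_const
    exact h1.inter h2
  have hanti : Antitone S := by
    intro m m' hm y hy
    refine ⟨hy.1, hy.2.trans ?_⟩
    have h1 : (m : ℝ) ≤ m' := by exact_mod_cast hm
    exact one_div_le_one_div_of_le (by positivity) (by linarith)
  have hfin : volume (S 0) ≠ ⊤ := by
    have hb : Bornology.IsBounded (S 0) := by
      refine (Metric.isBounded_closedBall (x := (0 : Fin k → ℝ)) (r := 2)).subset ?_
      intro y hy
      rw [mem_closedBall_zero_iff, pi_norm_le_iff_of_nonneg zero_le_two]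
      intro i
      rw [Real.norm_eq_abs]
      exact hy.1 i
    exact hb.measure_lt_top.ne
  have hlim := tendsto_measure_iInter_atTop (μ := volume)
    (fun m => (hcl m).measurableSet.nullMeasurableSet) hanti ⟨0, hfin⟩
  have hzero : volume (⋂ m, S m) = 0 := by
    refine measure_mono_null ?_ (poly_null k D c hc)
    intro y hy
    have h1 : ∀ m : ℕ, ‖ev c y‖ ≤ 1 / ((m : ℝ) + 2) := fun m => (Set.mem_iInter.1 hy m).2
    have h2 : ‖ev c y‖ ≤ 0 := by
      by_contra h
      rw [not_le] at h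
      obtain ⟨m, hm⟩ := exists_nat_one_div_lt h
      have h3 := h1 m
      have h4 : 1 / ((m : ℝ) + 2) ≤ 1 / ((m : ℝ) + 1) :=
        one_div_le_one_div_of_le (by positivity) (by linarith)
      linarith
    exact norm_le_zero_iff.1 h2
  rw [hzero] at hlim
  have h5 := (ENNReal.tendsto_nhds_zero.1 hlim) (ENNReal.ofReal ε) (ENNReal.ofReal_pos.2 hε)
  obtain ⟨m, hm⟩ := h5.exists
  refine ⟨1 / ((m : ℝ) + 2), by positivity, ?_, hm⟩
  rw [div_lt_one (by positivity)]
  have h6 : (0 : ℝ) ≤ m := Nat.cast_nonneg m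
  linarith

private theorem PolySmall_unit (k D : ℕ) (ε : ℝ) (hε : 0 < ε) : ∃ η : ℝ, 0 < η ∧ η < 1 ∧
    ∀ c : (Fin k → Fin (D + 1)) → ℂ, nr c = 1 →
      volume {y : Fin k → ℝ | (∀ i, |y i| ≤ 2) ∧ ‖ev c y‖ ≤ η} ≤ ENNReal.ofReal ε := by
  obtain ⟨C, hC1, hC⟩ := poly_lip k D
  have hC0 : 0 < C := lt_of_lt_of_le one_pos hC1
  have key : (fun s : Set ((Fin k → Fin (D + 1)) → ℂ) => ∃ η : ℝ, 0 < η ∧ η < 1 ∧
      ∀ c ∈ s, volume {y : Fin k → ℝ | (∀ i, |y i| ≤ 2) ∧ ‖ev c y‖ ≤ η} ≤ ENNReal.ofReal ε)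
      {c | nr c = 1} := by
    refine (PolySmall_compact k D).induction_on ?_ ?_ ?_ ?_
    · exact ⟨1 / 2, by norm_num, by norm_num, fun c hc => absurd hc (Set.notMem_empty c)⟩
    · rintro s t hst ⟨η, h1, h2, h3⟩
      exact ⟨η, h1, h2, fun c hc => h3 c (hst hc)⟩
    · rintro s t ⟨η, h1, h2, h3⟩ ⟨η', h1', h2', h3'⟩
      refine ⟨min η η', lt_min h1 h1', (min_le_left _ _).trans_lt h2, fun c hc => ?_⟩
      rcases hc with hc | hc
      · refine (measure_mono ?_).trans (h3 c hc)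
        exact fun y hy => ⟨hy.1, hy.2.trans (min_le_left _ _)⟩
      · refine (measure_mono ?_).trans (h3' c hc)
        exact fun y hy => ⟨hy.1, hy.2.trans (min_le_right _ _)⟩
    · intro c₀ hc₀
      have hc₀' : c₀ ≠ 0 := by
        rintro rfl
        have h : nr (0 : (Fin k → Fin (D + 1)) → ℂ) = 1 := hc₀
        unfold nr at h
        simp at h
      obtain ⟨η, h1, h2, h3⟩ := PolySmall_point k D ε hε c₀ hc₀'
      refine ⟨{c | C * Real.sqrt (nr (c - c₀)) < η / 2}, ?_, η / 2, by linarith, by linarith, ?_⟩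
      · refine mem_nhdsWithin_of_mem_nhds (IsOpen.mem_nhds ?_ ?_)
        · refine isOpen_lt ?_ continuous_const
          exact continuous_const.mul
            (Real.continuous_sqrt.comp (PolySmall_nr_cont.comp (continuous_id.sub continuous_const)))
        · show C * Real.sqrt (nr (c₀ - c₀)) < η / 2
          have h4 : nr (c₀ - c₀) = 0 := by
            unfold nr
            simp
          rw [h4, Real.sqrt_zero, mul_zero]
          linarith
      · intro c hc
        refine (measure_mono ?_).trans h3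
        rintro y ⟨hy1, hy2⟩
        refine ⟨hy1, ?_⟩
        have h5 := (hC (c - c₀) y y hy1 hy1).1
        have h6 : ev c₀ y = ev c y - ev (c - c₀) y := by
          rw [← PolySmall_sub]
          ring
        rw [h6]
        have h7 : C * Real.sqrt (nr (c - c₀)) < η / 2 := hc
        calc ‖ev c y - ev (c - c₀) y‖ ≤ ‖ev c y‖ + ‖ev (c - c₀) y‖ := norm_sub_le _ _
          _ ≤ η := by linarith
  obtain ⟨η, h1, h2, h3⟩ := key
  exact ⟨η, h1, h2, fun c hc => h3 c hc⟩

theorem poly_small (k D : ℕ) (ε : ℝ) (hε : 0 < ε) : ∃ η : ℝ, 0 < η ∧ η < 1 ∧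
    ∀ c : (Fin k → Fin (D + 1)) → ℂ, c ≠ 0 →
      volume {y : Fin k → ℝ | (∀ i, |y i| ≤ 2) ∧ ‖ev c y‖ ≤ η * Real.sqrt (nr c)} ≤
        ENNReal.ofReal ε := by
  obtain ⟨η, h1, h2, h3⟩ := PolySmall_unit k D ε hε
  refine ⟨η, h1, h2, fun c hc => ?_⟩
  have hn : 0 < nr c := by
    obtain ⟨α, hα⟩ := Function.ne_iff.1 hc
    have h4 : 0 < ‖c α‖ ^ 2 := pow_pos (norm_pos_iff.2 hα) 2
    refine lt_of_lt_of_le h4 ?_
    unfold nr
    exact Finset.single_le_sum (f := fun α => ‖c α‖ ^ 2) (fun β _ => sq_nonneg _)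
      (Finset.mem_univ α)
  have hs : 0 < Real.sqrt (nr c) := Real.sqrt_pos.2 hn
  set a : ℂ := (((Real.sqrt (nr c))⁻¹ : ℝ) : ℂ) with ha
  have hna : ‖a‖ = (Real.sqrt (nr c))⁻¹ := by
    rw [ha, Complex.norm_real, Real.norm_eq_abs, abs_of_pos (inv_pos.2 hs)]
  have h5 : nr (a • c) = 1 := by
    rw [PolySmall_nr_smul, hna, inv_pow, Real.sq_sqrt hn.le, inv_mul_cancel₀ hn.ne']
  refine (measure_mono ?_).trans (h3 (a • c) h5)
  rintro y ⟨hy1, hy2⟩
  refine ⟨hy1, ?_⟩
  rw [PolySmall_smul, norm_mul, hna, inv_mul_le_iff₀ hs]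
  linarith

end Pool.Agent.Lib.MP_ec260d_ntB
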