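import Mathlib
import Pool.Agent.Lib.MP_ec260d_ntB.Q.PolySmall

/-!
# JOB Q/CubeCount: integer points near a hypersurface (about 180 lines)

Let `η'` be given by `poly_small` for `ε`, `C` by `poly_lip`.  Put `η = η'/2`, `R₀ ≥ 2` with `C k / (2 R₀) ≤ η'/2`.  For `v ∈ F` let `Q_v` be the cube `{w : |w_i - v_i| < 1/2}` of volume `1`; these cubes are pairwise disjoint.
For `w ∈ Q_v` put `y_i = (w_i - g_i)/R_i`, so `|y_i| ≤ 1 + 1/(2R_i) ≤ 2` and `|y_i - (v_i - g_i)/R_i| ≤ 1/(2R₀)`; by `poly_lip` `‖ev c y‖ ≤ (η + C k/(2R₀)) sqrt(nr c) ≤ η' sqrt(nr c)`.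
So `⋃ Q_v` is contained in the preimage of the set `Z` of `poly_small` under the affine map `w ↦ ((w_i - g_i)/R_i)_i`, whose volume is `(∏ R_i) volume Z` (`Real.volume_preimage_mul_left`-type formula for the product: `MeasureTheory.Measure.addHaar_preimage_linearMap`, or `Real.map_linearMap_volume_pi_eq_smul_volume_pi` with a diagonal matrix, and translation invariance).
Hence `card F = volume (⋃ Q_v) ≤ ε ∏ R_i`.  (`k = 0` is included: then `F` is empty since `η < 1`, or the same computation.)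
-/

namespace Pool.Agent.Lib.MP_ec260d_ntB

open MeasureTheory

private def cubeCount_Q {k : ℕ} (v : Fin k → ℤ) : Set (Fin k → ℝ) :=
  Set.pi Set.univ fun i => Set.Ioo ((v i : ℝ) - 1 / 2) ((v i : ℝ) + 1 / 2)

private theorem cubeCount_vol {k : ℕ} (v : Fin k → ℤ) : volume (cubeCount_Q v) = 1 := by
  unfold cubeCount_Q
  rw [Real.volume_pi_Ioo]
  refine Finset.prod_eq_one fun i _ => ?_
  have h1 : ((v i : ℝ) + 1 / 2) - ((v i : ℝ) - 1 / 2) = 1 := by ring
  rw [h1, ENNReal.ofReal_one]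

private theorem cubeCount_meas {k : ℕ} (v : Fin k → ℤ) : MeasurableSet (cubeCount_Q v) :=
  MeasurableSet.univ_pi fun _ => measurableSet_Ioo

private theorem cubeCount_disj {k : ℕ} {v v' : Fin k → ℤ} (h : v ≠ v') :
    Disjoint (cubeCount_Q v) (cubeCount_Q v') := by
  rw [Set.disjoint_left]
  intro w hw hw'
  apply h
  funext i
  have h1 := hw i (Set.mem_univ i)
  have h2 := hw' i (Set.mem_univ i)
  rw [Set.mem_Ioo] at h1 h2
  have h3 : (v i : ℝ) < (v' i : ℝ) + 1 := by linarith [h1.1, h2.2]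
  have h4 : (v' i : ℝ) < (v i : ℝ) + 1 := by linarith [h2.1, h1.2]
  have h5 : v i < v' i + 1 := by exact_mod_cast h3
  have h6 : v' i < v i + 1 := by exact_mod_cast h4
  omega

private theorem cubeCount_pre {k : ℕ} (g R : Fin k → ℝ) (hR : ∀ i, 0 < R i) (Z : Set (Fin k → ℝ)) :
    volume ((fun w : Fin k → ℝ => fun i => (w i - g i) / R i) ⁻¹' Z) =
      ENNReal.ofReal (∏ i, R i) * volume Z := by
  have hdet : LinearMap.det (Matrix.toLin' (Matrix.diagonal fun i => (R i)⁻¹)) = ∏ i, (R i)⁻¹ := by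
    rw [LinearMap.det_toLin', Matrix.det_diagonal]
  have hprod : 0 < ∏ i, R i := Finset.prod_pos fun i _ => hR i
  have hne : LinearMap.det (Matrix.toLin' (Matrix.diagonal fun i => (R i)⁻¹)) ≠ 0 := by
    rw [hdet, Finset.prod_inv_distrib]
    exact inv_ne_zero hprod.ne'
  have h1 : ((fun w : Fin k → ℝ => fun i => (w i - g i) / R i) ⁻¹' Z) =
      (fun w : Fin k → ℝ => w - g) ⁻¹' ((Matrix.toLin' (Matrix.diagonal fun i => (R i)⁻¹)) ⁻¹' Z) := by
    ext w
    rw [Set.mem_preimage, Set.mem_preimage, Set.mem_preimage]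
    have h2 : (fun i => (w i - g i) / R i) =
        (Matrix.toLin' (Matrix.diagonal fun i => (R i)⁻¹)) (w - g) := by
      funext i
      rw [Matrix.toLin'_apply, Matrix.mulVec_diagonal, Pi.sub_apply]
      rw [div_eq_inv_mul]
    rw [h2]
  rw [h1]
  have h3 : ∀ A : Set (Fin k → ℝ), volume ((fun w : Fin k → ℝ => w - g) ⁻¹' A) = volume A := by
    intro A
    have h4 : (fun w : Fin k → ℝ => w - g) = fun w => w + -g := by
      funext w
      exact sub_eq_add_neg w g
    rw [h4]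
    exact measure_preimage_add_right volume (-g) A
  rw [h3, Measure.addHaar_preimage_linearMap volume hne, hdet, Finset.prod_inv_distrib, inv_inv,
    abs_of_pos hprod]

theorem cube_count (k D : ℕ) (ε : ℝ) (hε : 0 < ε) : ∃ η R₀ : ℝ, 0 < η ∧ η < 1 ∧ 1 ≤ R₀ ∧
    ∀ R : Fin k → ℝ, (∀ i, R₀ ≤ R i) → ∀ (g : Fin k → ℝ) (c : (Fin k → Fin (D + 1)) → ℂ), c ≠ 0 →
      ∀ F : Finset (Fin k → ℤ), (∀ v ∈ F, (∀ i, |(v i : ℝ) - g i| ≤ R i) ∧
          ‖ev c (fun i => ((v i : ℝ) - g i) / R i)‖ ≤ η * Real.sqrt (nr c)) →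
        (F.card : ℝ) ≤ ε * ∏ i, R i := by
  obtain ⟨η', hη0, hη1, hη⟩ := poly_small k D ε hε
  obtain ⟨C, hC1, hC⟩ := poly_lip k D
  have hC0 : 0 < C := by linarith
  refine ⟨η' / 2, max 2 (C * k / η'), by positivity, by linarith, le_trans (by norm_num) (le_max_left _ _), ?_⟩
  intro R hR g c hc F hF
  have hR2 : ∀ i, 2 ≤ R i := fun i => le_trans (le_max_left _ _) (hR i)
  have hRp : ∀ i, 0 < R i := fun i => by linarith [hR2 i]
  have hR0 : (2 : ℝ) ≤ max 2 (C * k / η') := le_max_left _ _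
  obtain ⟨R0, hR0d⟩ : ∃ R0 : ℝ, R0 = max 2 (C * k / η') := ⟨_, rfl⟩
  rw [← hR0d] at hR hR0
  have hR0C : C * k ≤ η' * R0 := by
    have h1 : C * k / η' ≤ R0 := by
      rw [hR0d]
      exact le_max_right _ _
    rw [div_le_iff₀ hη0] at h1
    linarith
  have hs : 0 ≤ Real.sqrt (nr c) := Real.sqrt_nonneg _
  obtain ⟨Z, hZ⟩ : ∃ Z : Set (Fin k → ℝ), Z = {y : Fin k → ℝ | (∀ i, |y i| ≤ 2) ∧
    ‖ev c y‖ ≤ η' * Real.sqrt (nr c)} := ⟨_, rfl⟩
  have hvol : volume Z ≤ ENNReal.ofReal ε := by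
    rw [hZ]
    exact hη c hc
  have hsub : (⋃ v ∈ F, cubeCount_Q v) ⊆ (fun w : Fin k → ℝ => fun i => (w i - g i) / R i) ⁻¹' Z := by
    intro w hw
    rw [Set.mem_iUnion₂] at hw
    obtain ⟨v, hv, hwv⟩ := hw
    obtain ⟨hv1, hv2⟩ := hF v hv
    have hwi : ∀ i, |w i - v i| ≤ 1 / 2 := by
      intro i
      have h1 := hwv i (Set.mem_univ i)
      rw [Set.mem_Ioo] at h1
      rw [abs_le]
      constructor <;> linarith [h1.1, h1.2]
    have hy : ∀ i, |(w i - g i) / R i| ≤ 2 := by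
      intro i
      rw [abs_div, abs_of_pos (hRp i), div_le_iff₀ (hRp i)]
      have h1 : w i - g i = (w i - v i) + (v i - g i) := by ring
      have h2 : |w i - g i| ≤ |w i - v i| + |(v i : ℝ) - g i| := by
        rw [h1]
        exact abs_add_le _ _
      linarith [hwi i, hv1 i, hR2 i]
    have hy' : ∀ i, |((v i : ℝ) - g i) / R i| ≤ 2 := by
      intro i
      rw [abs_div, abs_of_pos (hRp i), div_le_iff₀ (hRp i)]
      linarith [hv1 i, hR2 i]
    have hd : ∀ i, |(w i - g i) / R i - ((v i : ℝ) - g i) / R i| ≤ 1 / (2 * R0) := by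
      intro i
      have h1 : (w i - g i) / R i - ((v i : ℝ) - g i) / R i = (w i - v i) / R i := by
        rw [← sub_div]
        congr 1
        ring
      rw [h1, abs_div, abs_of_pos (hRp i), div_le_iff₀ (hRp i)]
      have h2 : 1 / 2 ≤ 1 / (2 * R0) * R i := by
        have h3 : 1 / (2 * R0) * R i = (R i / R0) / 2 := by
          field_simp
        have h4 : 1 ≤ R i / R0 := by
          rw [le_div_iff₀ (by linarith)]
          linarith [hR i]
        rw [h3]
        linarith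
      linarith [hwi i]
    have h1 := (hC c (fun i => (w i - g i) / R i) (fun i => ((v i : ℝ) - g i) / R i) hy hy').2
    have h2 : ∑ i : Fin k, |(w i - g i) / R i - ((v i : ℝ) - g i) / R i| ≤ k * (1 / (2 * R0)) := by
      refine (Finset.sum_le_sum fun i _ => hd i).trans ?_
      rw [Finset.sum_const, Finset.card_univ, Fintype.card_fin, nsmul_eq_mul]
    rw [Set.mem_preimage, hZ]
    refine ⟨hy, ?_⟩
    have h3 : ‖ev c fun i => (w i - g i) / R i‖ ≤ ‖ev c fun i => ((v i : ℝ) - g i) / R i‖ +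
        ‖(ev c fun i => (w i - g i) / R i) - ev c fun i => ((v i : ℝ) - g i) / R i‖ := by
      have h4 := norm_add_le (ev c fun i => ((v i : ℝ) - g i) / R i)
        ((ev c fun i => (w i - g i) / R i) - ev c fun i => ((v i : ℝ) - g i) / R i)
      rw [add_sub_cancel] at h4
      exact h4
    have h5 : C * Real.sqrt (nr c) * ∑ i : Fin k, |(w i - g i) / R i - ((v i : ℝ) - g i) / R i| ≤
        C * Real.sqrt (nr c) * (k * (1 / (2 * R0))) :=
      mul_le_mul_of_nonneg_left h2 (mul_nonneg hC0.le hs)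
    have h6 : C * Real.sqrt (nr c) * (k * (1 / (2 * R0))) ≤ η' / 2 * Real.sqrt (nr c) := by
      have h7 : C * Real.sqrt (nr c) * (k * (1 / (2 * R0))) = (C * k / (2 * R0)) * Real.sqrt (nr c) := by
        field_simp
      rw [h7]
      refine mul_le_mul_of_nonneg_right ?_ hs
      rw [div_le_iff₀ (by linarith)]
      linarith
    have h8 : η' * Real.sqrt (nr c) = η' / 2 * Real.sqrt (nr c) + η' / 2 * Real.sqrt (nr c) := by ring
    rw [h8]
    linarith
  have hcard : volume (⋃ v ∈ F, cubeCount_Q v) = (F.card : ENNReal) := by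
    rw [measure_biUnion_finset (fun v _ v' _ h => cubeCount_disj h) fun v _ => cubeCount_meas v,
      Finset.sum_congr rfl fun v _ => cubeCount_vol v, Finset.sum_const, nsmul_eq_mul, mul_one]
  have hprod : 0 ≤ ∏ i, R i := Finset.prod_nonneg fun i _ => (hRp i).le
  have hfin : (F.card : ENNReal) ≤ ENNReal.ofReal (ε * ∏ i, R i) := by
    rw [← hcard]
    refine (measure_mono hsub).trans ?_
    rw [cubeCount_pre g R hRp, mul_comm ε, ENNReal.ofReal_mul hprod]
    exact mul_le_mul_right hvol _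
  rw [← ENNReal.ofReal_natCast, ENNReal.ofReal_le_ofReal_iff (mul_nonneg hε.le hprod)] at hfin
  exact hfin

end Pool.Agent.Lib.MP_ec260d_ntB
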