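import Mathlib
import Pool.Agent.Lib.MP_ec260d_ntB.Q.QDefs

/-!
# JOB Q/Intv: sublevel sets of real polynomials consist of few intervals (about 200 lines)

`real_poly`: for a complex polynomial `f` let `f = f₁ + i f₂` with real polynomials (coefficientwise real and imaginary parts: `f₁ = ∑ C (re coeff n) X^n`); `r = f₁^2 + f₂^2`.
`intv`: if `r = 0` the set is the whole interval: apply the hypothesis with `a' = a`, `b' = b`.  Otherwise let `a < x_1 < .. < x_m < b` be the roots of `r` in `(a, b)`, `m ≤ n`.  On each of the `m + 1` open intervals between consecutive points of `a, x_1, .., x_m, b` the polynomial `r` has constant sign (intermediate value theorem).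
The set `{t ∈ [a,b] : r t ≤ 0}` is, up to finitely many points, the union of those closed intervals on which `r ≤ 0`; add the hypothesis over these (at most `n + 1`) intervals: `volume (S ∩ {..}) ≤ ∑ (c * length + e)` and `∑ length ≤ volume {t ∈ [a,b] | r t ≤ 0}`.
(Induction on the number of roots in `(a, b)` is convenient: statement for all `a ≤ b` with at most `m` roots in `(a, b)` and the bound `c * volume + (m + 1) e`; for `m = 0` constant sign, for the step cut at a root.)
`intv_q`: apply with the polynomial `r = ‖∑_α y^α q_α(t)‖^2 - η^2 ∑_α ‖q_α(t)‖^2` of degree `≤ 2 D`; `‖ev‖ ≤ η sqrt(nr)` iff `‖ev‖^2 ≤ η^2 nr` (both sides nonnegative).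
-/

namespace Pool.Agent.Lib.MP_ec260d_ntB

open MeasureTheory Set

theorem real_poly (f : Polynomial ℂ) : ∃ r : Polynomial ℝ, r.natDegree ≤ 2 * f.natDegree ∧
    ∀ t : ℝ, r.eval t = ‖f.eval (t : ℂ)‖ ^ 2 := by
  classical
  let P : (ℂ → ℝ) → Polynomial ℝ := fun u =>
    ∑ n ∈ Finset.range (f.natDegree + 1), Polynomial.C (u (f.coeff n)) * Polynomial.X ^ n
  have hP : ∀ u, (P u).natDegree ≤ f.natDegree := by
    intro u
    refine Polynomial.natDegree_sum_le_of_forall_le _ _ fun n hn => ?_
    refine (Polynomial.natDegree_C_mul_X_pow_le _ _).trans ?_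
    have := Finset.mem_range.1 hn
    omega
  have hev : ∀ u, ∀ t : ℝ, (P u).eval t =
      ∑ n ∈ Finset.range (f.natDegree + 1), u (f.coeff n) * t ^ n := by
    intro u t
    simp only [P, Polynomial.eval_finsetSum, Polynomial.eval_mul, Polynomial.eval_C,
      Polynomial.eval_pow, Polynomial.eval_X]
  refine ⟨(P Complex.re) ^ 2 + (P Complex.im) ^ 2, ?_, ?_⟩
  · refine (Polynomial.natDegree_add_le _ _).trans (max_le ?_ ?_)
    · exact Polynomial.natDegree_pow_le.trans (Nat.mul_le_mul_left 2 (hP _))
    · exact Polynomial.natDegree_pow_le.trans (Nat.mul_le_mul_left 2 (hP _))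
  · intro t
    have hre : (f.eval (t : ℂ)).re = (P Complex.re).eval t := by
      rw [hev, Polynomial.eval_eq_sum_range, Complex.re_sum]
      refine Finset.sum_congr rfl fun n _ => ?_
      rw [← Complex.ofReal_pow, Complex.re_mul_ofReal]
    have him : (f.eval (t : ℂ)).im = (P Complex.im).eval t := by
      rw [hev, Polynomial.eval_eq_sum_range, Complex.im_sum]
      refine Finset.sum_congr rfl fun n _ => ?_
      rw [← Complex.ofReal_pow, Complex.im_mul_ofReal]
    rw [Polynomial.eval_add, Polynomial.eval_pow, Polynomial.eval_pow, ← hre, ← him,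
      ← Complex.normSq_eq_norm_sq, Complex.normSq_apply]
    ring

private theorem Intv_aux (r : Polynomial ℝ) (hr0 : r ≠ 0) (S : Set ℝ) (c e : ℝ) (hc : 0 ≤ c)
    (he : 0 ≤ e) : ∀ (m : ℕ) (a b : ℝ), a ≤ b →
      (r.roots.toFinset.filter (fun x => a < x ∧ x < b)).card = m →
      (∀ a' b' : ℝ, a ≤ a' → a' ≤ b' → b' ≤ b →
        (volume (S ∩ Icc a' b')).toReal ≤ c * (b' - a') + e) →
      (volume (S ∩ {t : ℝ | t ∈ Icc a b ∧ r.eval t ≤ 0})).toReal ≤
        c * (volume {t : ℝ | t ∈ Icc a b ∧ r.eval t ≤ 0}).toReal + (m + 1) * e := by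
  intro m
  induction m using Nat.strong_induction_on with
  | _ m ih =>
    intro a b hab hm h
    have hcont : Continuous fun t : ℝ => r.eval t := r.continuous
    have hmeas : ∀ a b : ℝ, MeasurableSet {t : ℝ | t ∈ Icc a b ∧ r.eval t ≤ 0} := by
      intro a b
      exact measurableSet_Icc.inter (isClosed_le hcont continuous_const).measurableSet
    have hfin : ∀ (U : Set ℝ) (a b : ℝ), U ⊆ Icc a b → volume U ≠ ⊤ := by
      intro U a b hU
      exact ((measure_mono hU).trans_lt (by rw [Real.volume_Icc]; exact ENNReal.ofReal_lt_top)).ne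
    by_cases hx : ∃ x, a < x ∧ x < b ∧ r.eval x = 0
    · obtain ⟨x, hax, hxb, hx0⟩ := hx
      -- numbers of roots
      have hxr : x ∈ r.roots.toFinset := by
        rw [Multiset.mem_toFinset, Polynomial.mem_roots hr0]
        exact hx0
      set F := r.roots.toFinset.filter (fun y => a < y ∧ y < b) with hF
      set F₁ := r.roots.toFinset.filter (fun y => a < y ∧ y < x) with hF₁
      set F₂ := r.roots.toFinset.filter (fun y => x < y ∧ y < b) with hF₂
      have hcard : F₁.card + F₂.card + 1 = F.card := by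
        have hd : Disjoint F₁ F₂ := by
          rw [Finset.disjoint_left]
          intro y hy1 hy2
          rw [hF₁, Finset.mem_filter] at hy1
          rw [hF₂, Finset.mem_filter] at hy2
          linarith [hy1.2.2, hy2.2.1]
        have hx' : x ∉ F₁ ∪ F₂ := by
          intro hmem
          rcases Finset.mem_union.1 hmem with h1 | h1
          · rw [hF₁, Finset.mem_filter] at h1
            exact lt_irrefl _ h1.2.2
          · rw [hF₂, Finset.mem_filter] at h1
            exact lt_irrefl _ h1.2.1
        have hins : F = insert x (F₁ ∪ F₂) := by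
          ext y
          rw [Finset.mem_insert, Finset.mem_union, hF, hF₁, hF₂, Finset.mem_filter,
            Finset.mem_filter, Finset.mem_filter]
          constructor
          · rintro ⟨h1, h2, h3⟩
            rcases lt_trichotomy y x with h4 | h4 | h4
            · exact Or.inr (Or.inl ⟨h1, h2, h4⟩)
            · exact Or.inl h4
            · exact Or.inr (Or.inr ⟨h1, h4, h3⟩)
          · rintro (h1 | h1 | h1)
            · rw [h1]
              exact ⟨hxr, hax, hxb⟩
            · exact ⟨h1.1, h1.2.1, h1.2.2.trans hxb⟩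
            · exact ⟨h1.1, hax.trans h1.2.1, h1.2.2⟩
        rw [hins, Finset.card_insert_of_notMem hx', Finset.card_union_of_disjoint hd]
      have hm1 : F₁.card < m := by omega
      have hm2 : F₂.card < m := by omega
      have h1 := ih F₁.card hm1 a x hax.le rfl fun a' b' ha hab' hb =>
        h a' b' ha hab' (hb.trans hxb.le)
      have h2 := ih F₂.card hm2 x b hxb.le rfl fun a' b' ha hab' hb =>
        h a' b' (hax.le.trans ha) hab' hb
      set U := {t : ℝ | t ∈ Icc a b ∧ r.eval t ≤ 0} with hU
      set U₁ := {t : ℝ | t ∈ Icc a x ∧ r.eval t ≤ 0} with hU₁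
      set U₂ := {t : ℝ | t ∈ Icc x b ∧ r.eval t ≤ 0} with hU₂
      have hUU : U = U₁ ∪ U₂ := by
        ext t
        constructor
        · rintro ⟨h3, h4⟩
          rcases le_total t x with h5 | h5
          · exact Or.inl ⟨⟨h3.1, h5⟩, h4⟩
          · exact Or.inr ⟨⟨h5, h3.2⟩, h4⟩
        · rintro (h3 | h3)
          · exact ⟨⟨h3.1.1, h3.1.2.trans hxb.le⟩, h3.2⟩
          · exact ⟨⟨hax.le.trans h3.1.1, h3.1.2⟩, h3.2⟩
      have hsub1 : U₁ ⊆ Icc a x := fun t ht => ht.1
      have hsub2 : U₂ ⊆ Icc x b := fun t ht => ht.1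
      have hcap : volume (U₁ ∩ U₂) = 0 := by
        refine measure_mono_null (t := {x}) ?_ (measure_singleton x)
        intro t ht
        exact le_antisymm ht.1.1.2 ht.2.1.1
      have hsum : (volume U).toReal = (volume U₁).toReal + (volume U₂).toReal := by
        have h3 := measure_union_add_inter (μ := volume) U₁ (hmeas x b)
        rw [← hU₂, hcap, add_zero, ← hUU] at h3
        rw [h3, ENNReal.toReal_add (hfin _ _ _ hsub1) (hfin _ _ _ hsub2)]
      have hleft : (volume (S ∩ U)).toReal ≤
          (volume (S ∩ U₁)).toReal + (volume (S ∩ U₂)).toReal := by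
        rw [← ENNReal.toReal_add (hfin _ a x (inter_subset_right.trans hsub1))
          (hfin _ x b (inter_subset_right.trans hsub2))]
        refine ENNReal.toReal_mono (ENNReal.add_ne_top.2
          ⟨hfin _ a x (inter_subset_right.trans hsub1),
            hfin _ x b (inter_subset_right.trans hsub2)⟩) ?_
        rw [hUU, inter_union_distrib_left]
        exact measure_union_le _ _
      have hmR : ((F₁.card : ℝ) + 1) * e + ((F₂.card : ℝ) + 1) * e = ((m : ℝ) + 1) * e := by
        have h3 : ((F₁.card : ℝ)) + F₂.card + 1 = m := by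
          rw [← hm, ← hcard]
          push_cast
          ring
        rw [← h3]
        ring
      rw [hsum]
      linarith [hleft, h1, h2]
    · have hne : ∀ x, a < x → x < b → r.eval x ≠ 0 := by
        intro x h1 h2 h3
        exact hx ⟨x, h1, h2, h3⟩
      have hm0 : (0 : ℝ) ≤ (m : ℝ) * e := mul_nonneg (Nat.cast_nonneg m) he
      by_cases hneg : ∃ t ∈ Ioo a b, r.eval t ≤ 0
      · obtain ⟨t, ht, ht0⟩ := hneg
        have hall : Ioo a b ⊆ {t : ℝ | t ∈ Icc a b ∧ r.eval t ≤ 0} := by
          intro s hs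
          refine ⟨⟨hs.1.le, hs.2.le⟩, ?_⟩
          by_contra hpos
          rw [not_le] at hpos
          have hIVT := intermediate_value_uIcc (a := t) (b := s) (f := fun t : ℝ => r.eval t)
            hcont.continuousOn
          have h0 : (0 : ℝ) ∈ uIcc (r.eval t) (r.eval s) := by
            rw [uIcc_of_le (ht0.trans hpos.le)]
            exact ⟨ht0, hpos.le⟩
          obtain ⟨y, hy, hy0⟩ := hIVT h0
          have hy1 : y ∈ Ioo a b := by
            have h4 := ordConnected_Ioo.uIcc_subset ht hs
            exact h4 hy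
          exact hne y hy1.1 hy1.2 hy0
        have h1 : b - a ≤ (volume {t : ℝ | t ∈ Icc a b ∧ r.eval t ≤ 0}).toReal := by
          have h2 : (volume (Ioo a b)).toReal = b - a := by
            rw [Real.volume_Ioo, ENNReal.toReal_ofReal (by linarith)]
          rw [← h2]
          exact ENNReal.toReal_mono (hfin _ a b fun t ht => ht.1) (measure_mono hall)
        have h2 : (volume (S ∩ {t : ℝ | t ∈ Icc a b ∧ r.eval t ≤ 0})).toReal ≤
            (volume (S ∩ Icc a b)).toReal := by
          refine ENNReal.toReal_mono (hfin _ a b inter_subset_right) (measure_mono ?_)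
          exact inter_subset_inter_right S fun t ht => ht.1
        have h3 := h a b le_rfl hab le_rfl
        have h4 := mul_le_mul_of_nonneg_left h1 hc
        linarith
      · have hsub : {t : ℝ | t ∈ Icc a b ∧ r.eval t ≤ 0} ⊆ {a, b} := by
          rintro t ⟨h1, h2⟩
          rw [mem_insert_iff, mem_singleton_iff]
          by_contra h3
          rw [not_or] at h3
          exact hneg ⟨t, ⟨lt_of_le_of_ne h1.1 (Ne.symm h3.1), lt_of_le_of_ne h1.2 h3.2⟩, h2⟩
        have h0 : volume (S ∩ {t : ℝ | t ∈ Icc a b ∧ r.eval t ≤ 0}) = 0 := by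
          refine measure_mono_null (inter_subset_right.trans hsub) ?_
          exact (Set.toFinite {a, b}).measure_zero volume
        rw [h0, ENNReal.toReal_zero]
        have h1 : 0 ≤ c * (volume {t : ℝ | t ∈ Icc a b ∧ r.eval t ≤ 0}).toReal :=
          mul_nonneg hc ENNReal.toReal_nonneg
        linarith

theorem intv (r : Polynomial ℝ) (n : ℕ) (hr : r.natDegree ≤ n) (S : Set ℝ) (a b c e : ℝ) (hab : a ≤ b)
    (hc : 0 ≤ c) (he : 0 ≤ e)
    (h : ∀ a' b' : ℝ, a ≤ a' → a' ≤ b' → b' ≤ b → (volume (S ∩ Icc a' b')).toReal ≤ c * (b' - a') + e) :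
    (volume (S ∩ {t : ℝ | t ∈ Icc a b ∧ r.eval t ≤ 0})).toReal ≤
      c * (volume {t : ℝ | t ∈ Icc a b ∧ r.eval t ≤ 0}).toReal + (n + 1) * e := by
  classical
  have hn0 : (0 : ℝ) ≤ (n : ℝ) * e := mul_nonneg (Nat.cast_nonneg n) he
  by_cases hr0 : r = 0
  · have hset : {t : ℝ | t ∈ Icc a b ∧ r.eval t ≤ 0} = Icc a b := by
      ext t
      constructor
      · exact fun ht => ht.1
      · intro ht
        refine ⟨ht, ?_⟩
        rw [hr0, Polynomial.eval_zero]
    rw [hset]
    have h1 := h a b le_rfl hab le_rfl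
    rw [Real.volume_Icc, ENNReal.toReal_ofReal (by linarith)]
    linarith
  · have h1 := Intv_aux r hr0 S c e hc he _ a b hab rfl h
    refine h1.trans ?_
    have h2 : (r.roots.toFinset.filter (fun x => a < x ∧ x < b)).card ≤ n :=
      ((Finset.card_filter_le _ _).trans (Multiset.toFinset_card_le _)).trans
        ((Polynomial.card_roots' r).trans hr)
    have h3 : (((r.roots.toFinset.filter (fun x => a < x ∧ x < b)).card : ℕ) : ℝ) ≤ n := by
      exact_mod_cast h2
    have h4 := mul_le_mul_of_nonneg_right h3 he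
    linarith

theorem intv_q (k D : ℕ) (q : (Fin k → Fin (D + 1)) → Polynomial ℂ) (hq : ∀ α, (q α).natDegree ≤ D)
    (y : Fin k → ℝ) (η : ℝ) (hη : 0 ≤ η) (S : Set ℝ) (a b c e : ℝ) (hab : a ≤ b)
    (hc : 0 ≤ c) (he : 0 ≤ e)
    (h : ∀ a' b' : ℝ, a ≤ a' → a' ≤ b' → b' ≤ b → (volume (S ∩ Icc a' b')).toReal ≤ c * (b' - a') + e) :
    (volume (S ∩ {t : ℝ | t ∈ Icc a b ∧ ‖ev (qe q t) y‖ ≤ η * Real.sqrt (nr (qe q t))})).toReal ≤
      c * (volume {t : ℝ | t ∈ Icc a b ∧ ‖ev (qe q t) y‖ ≤ η * Real.sqrt (nr (qe q t))}).toReal +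
        (2 * D + 1) * e := by
  classical
  -- the polynomial in the parameter
  let f : Polynomial ℂ := ∑ α : Fin k → Fin (D + 1),
    Polynomial.C (∏ i : Fin k, ((y i : ℝ) : ℂ) ^ (α i : ℕ)) * q α
  have hfd : f.natDegree ≤ D := by
    refine Polynomial.natDegree_sum_le_of_forall_le _ _ fun α _ => ?_
    exact (Polynomial.natDegree_C_mul_le _ _).trans (hq α)
  have hfe : ∀ t : ℝ, f.eval (t : ℂ) = ev (qe q t) y := by
    intro t
    simp only [f, Polynomial.eval_finsetSum, Polynomial.eval_mul, Polynomial.eval_C]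
    unfold ev qe
    exact Finset.sum_congr rfl fun α _ => mul_comm _ _
  obtain ⟨r₀, hr₀, hr₀e⟩ := real_poly f
  choose ρ hρ hρe using fun α => real_poly (q α)
  let r : Polynomial ℝ := r₀ - Polynomial.C (η ^ 2) * ∑ α, ρ α
  have hrd : r.natDegree ≤ 2 * D := by
    refine (Polynomial.natDegree_sub_le _ _).trans (max_le ?_ ?_)
    · exact hr₀.trans (Nat.mul_le_mul_left 2 hfd)
    · refine (Polynomial.natDegree_C_mul_le _ _).trans ?_
      refine Polynomial.natDegree_sum_le_of_forall_le _ _ fun α _ => ?_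
      exact (hρ α).trans (Nat.mul_le_mul_left 2 (hq α))
  have hre : ∀ t : ℝ, r.eval t = ‖ev (qe q t) y‖ ^ 2 - η ^ 2 * nr (qe q t) := by
    intro t
    simp only [r, Polynomial.eval_sub, Polynomial.eval_mul, Polynomial.eval_C,
      Polynomial.eval_finsetSum, hr₀e, hfe, hρe]
    rfl
  have hset : {t : ℝ | t ∈ Icc a b ∧ ‖ev (qe q t) y‖ ≤ η * Real.sqrt (nr (qe q t))} =
      {t : ℝ | t ∈ Icc a b ∧ r.eval t ≤ 0} := by
    ext t
    have hnr : 0 ≤ nr (qe q t) := Finset.sum_nonneg fun α _ => by positivity
    have hs : (η * Real.sqrt (nr (qe q t))) ^ 2 = η ^ 2 * nr (qe q t) := by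
      rw [mul_pow, Real.sq_sqrt hnr]
    have hiff : ‖ev (qe q t) y‖ ≤ η * Real.sqrt (nr (qe q t)) ↔ r.eval t ≤ 0 := by
      rw [hre t, ← hs, sub_nonpos]
      constructor
      · intro h1
        exact pow_le_pow_left₀ (norm_nonneg _) h1 2
      · intro h1
        exact le_of_sq_le_sq h1 (mul_nonneg hη (Real.sqrt_nonneg _))
    simp only [mem_ofPred_eq, hiff]
  rw [hset]
  have h1 := intv r (2 * D) hrd S a b c e hab hc he h
  push_cast at h1
  exact h1

end Pool.Agent.Lib.MP_ec260d_ntB
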