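import Mathlib
import Pool.Agent.Lib.MP_ec260d_ntB.Defs
import Pool.Agent.Lib.MP_ec260d_nt.OrdIdx

/-!
# JOB Q/OrdF: elementary facts on the ordinates (about 250 lines)

Use `rvm` (RvM.lean; `NZ T = zeroCount T` by `zeroCount_eq`), `zeroCount_mono`, `zeroCount_nonpos` and the first part of the proof of `ordinate_spec` in OrdIdx.lean (there `hup`: `ordinate m < T → m ≤ zeroCount T`, `hlo`: `T < ordinate m → zeroCount T < m`, using that the set `{T | m ≤ zeroCount T}` is nonempty (`OrdIdx_lower`: reprove it here from `rvm`) and, for `m ≥ 1`, bounded below by `0`).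
`ord_lt`, `lt_ord`: these two facts; for `m = 0` the set is all of `ℝ` and `sInf univ = 0`, so `m ≥ 1` is assumed.
`ord_mono`: `m ≤ n` gives inclusion of the sets, `csInf_le_csInf`.
`total`: `zeroCount (b) - zeroCount (a)` for `T ≤ a ≤ b ≤ 4T`: from `rvm`: `(b log b - a log a - c (b - a))/(2π) + O(T^(1/2))`, and `b log b - a log a = (b - a) log T + O(b - a)` up to a constant (mean value theorem: the derivative `1 + log x` lies in `[log T, log T + 4]` on `[T, 4T]`).
`ord_shift`: let `T = ordinate n` (large), `m ≤ C log n`.  By `total` with `a = T + 1`... one has `zeroCount (T + T^(2/3)) ≥ n + m` since `T^(2/3) log T / (2π) - C' T^(2/3) - C' T^(1/2) ≥ C log n` for large `n` (`log n ≤ 2 log T`), so `ordinate (n + m) ≤ T + T^(2/3) ≤ T + T/8`.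
`ord_asym`: `n ≤ T log T` and `T log T ≤ 7 n` hold for `T = ordinate n`, `n` large (`rvm` and `ordinate_spec`; `2π < 7`, the error terms are of smaller order).
-/

namespace Pool.Agent.Lib.MP_ec260d_ntB

open Set Filter Topology
open Pool.Agent.Lib.MP_ec260d_nt (ordinate zeroCount)

private lemma OrdF_rvm : ∃ c C : ℝ, 0 ≤ C ∧ ∀ T : ℝ, 1 ≤ T →
    |NN T - T / (2 * Real.pi) * (Real.log T - c)| ≤ C * Real.sqrt T := by
  obtain ⟨c, C, hC, hr⟩ := Pool.Agent.Lib.MP_ec260d_nt.rvm
  refine ⟨c, C, hC, fun T hT => ?_⟩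
  have h := hr T hT
  rw [← Pool.Agent.Lib.MP_ec260d_nt.zeroCount_eq, ← Real.sqrt_eq_rpow] at h
  exact h

private lemma OrdF_sqrt_le {T : ℝ} (h : 1 ≤ T) : Real.sqrt T ≤ T := by
  rw [Real.sqrt_le_left (by linarith)]
  nlinarith

private lemma OrdF_lower : ∃ X : ℝ, 1 ≤ X ∧ ∀ T : ℝ, X ≤ T → T ≤ NN T := by
  obtain ⟨c, C, hC, hr⟩ := OrdF_rvm
  have hπ := Real.pi_pos
  refine ⟨max 1 (Real.exp (c + 2 * Real.pi * (1 + C))), le_max_left _ _, fun T hT => ?_⟩
  have hT1 : 1 ≤ T := (le_max_left _ _).trans hT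
  have hT0 : 0 < T := by linarith
  have hlog : c + 2 * Real.pi * (1 + C) ≤ Real.log T :=
    (Real.le_log_iff_exp_le hT0).2 ((le_max_right _ _).trans hT)
  have h1 := (abs_le.1 (hr T hT1)).1
  have h2 := OrdF_sqrt_le hT1
  have h3 : T / (2 * Real.pi) * (2 * Real.pi * (1 + C)) ≤ T / (2 * Real.pi) * (Real.log T - c) :=
    mul_le_mul_of_nonneg_left (by linarith) (by positivity)
  have h4 : T / (2 * Real.pi) * (2 * Real.pi * (1 + C)) = T * (1 + C) := by
    field_simp
  have h5 : C * Real.sqrt T ≤ C * T := mul_le_mul_of_nonneg_left h2 hC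
  nlinarith

private lemma OrdF_bdd {m : ℕ} (hm : 1 ≤ m) : BddBelow {T : ℝ | m ≤ zeroCount T} := by
  refine ⟨0, fun T hT => ?_⟩
  by_contra hneg
  rw [not_le] at hneg
  have h1 := Pool.Agent.Lib.MP_ec260d_nt.zeroCount_nonpos hneg.le
  have h2 : m ≤ zeroCount T := hT
  omega

private lemma OrdF_ne (m : ℕ) : {T : ℝ | m ≤ zeroCount T}.Nonempty := by
  obtain ⟨X, hX1, hX⟩ := OrdF_lower
  refine ⟨max X m, ?_⟩
  have h1 := hX (max X m) (le_max_left _ _)
  have h2 : (m : ℝ) ≤ zeroCount (max X m) := (le_max_right _ _).trans h1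
  exact_mod_cast h2

theorem lt_ord {m : ℕ} (hm : 1 ≤ m) {t : ℝ} (h : t < ordinate m) : zeroCount t < m := by
  by_contra hcon
  rw [not_lt] at hcon
  exact absurd (csInf_le (OrdF_bdd hm) hcon) (not_le.2 h)

theorem ord_lt {m : ℕ} (hm : 1 ≤ m) {t : ℝ} (h : ordinate m < t) : m ≤ zeroCount t := by
  obtain ⟨T', hT', hlt⟩ := (csInf_lt_iff (OrdF_bdd hm) (OrdF_ne m)).1 h
  exact le_trans hT' (Pool.Agent.Lib.MP_ec260d_nt.zeroCount_mono hlt.le)

theorem ord_mono {m n : ℕ} (hm : 1 ≤ m) (h : m ≤ n) : ordinate m ≤ ordinate n :=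
  csInf_le_csInf (OrdF_bdd hm) (OrdF_ne n) fun _ hT => le_trans h hT

theorem NN_mono {s t : ℝ} (h : s ≤ t) : NN s ≤ NN t := by
  unfold NN
  exact_mod_cast Pool.Agent.Lib.MP_ec260d_nt.zeroCount_mono h

private lemma OrdF_total : ∃ C : ℝ, 0 ≤ C ∧ ∀ T : ℝ, 2 ≤ T → ∀ a b : ℝ, T / 2 ≤ a → a ≤ b →
    b ≤ 8 * T →
    |NN b - NN a - (b - a) * Real.log T / (2 * Real.pi)| ≤ C * (b - a) + C * Real.sqrt T := by
  obtain ⟨c, C, hC, hr⟩ := OrdF_rvm
  refine ⟨4 + |c| + 8 * C, by positivity, fun T hT a b ha hab hb => ?_⟩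
  have hT0 : 0 < T := by linarith
  have ha1 : 1 ≤ a := by linarith
  have hb1 : 1 ≤ b := ha1.trans hab
  have ha0 : 0 < a := by linarith
  have hb0 : 0 < b := by linarith
  have hπ := Real.pi_gt_three
  have hsq0 : 0 ≤ Real.sqrt T := Real.sqrt_nonneg T
  have hsq : ∀ x : ℝ, x ≤ 8 * T → Real.sqrt x ≤ 3 * Real.sqrt T := by
    intro x hx
    have h9 : Real.sqrt (9 * T) = 3 * Real.sqrt T := by
      rw [Real.sqrt_mul (by norm_num), show (9 : ℝ) = 3 ^ 2 by norm_num,
        Real.sqrt_sq (by norm_num)]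
    rw [← h9]
    exact Real.sqrt_le_sqrt (by linarith)
  have h1 := hr a ha1
  have h2 := hr b hb1
  have h3 : C * Real.sqrt a ≤ C * (3 * Real.sqrt T) :=
    mul_le_mul_of_nonneg_left (hsq a (hab.trans hb)) hC
  have h4 : C * Real.sqrt b ≤ C * (3 * Real.sqrt T) :=
    mul_le_mul_of_nonneg_left (hsq b hb) hC
  -- the main term
  obtain ⟨L, hL⟩ : ∃ L, L = Real.log b - Real.log T := ⟨_, rfl⟩
  obtain ⟨K, hK⟩ : ∃ K, K = a * (Real.log b - Real.log a) := ⟨_, rfl⟩
  have hL1 : L ≤ 3 := by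
    have h5 : Real.log b ≤ Real.log (8 * T) := Real.log_le_log hb0 hb
    rw [Real.log_mul (by norm_num) hT0.ne'] at h5
    have h6 : Real.log 8 ≤ 3 := by
      have h7 : Real.log 8 = 3 * Real.log 2 := by
        rw [show (8 : ℝ) = 2 ^ 3 by norm_num, Real.log_pow]
        norm_num
      have h8 := Real.log_two_lt_d9
      rw [h7]
      linarith
    linarith
  have hL2 : -3 ≤ L := by
    have h5 : Real.log (T / 2) ≤ Real.log b := Real.log_le_log (by linarith) (ha.trans hab)
    rw [Real.log_div hT0.ne' (by norm_num)] at h5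
    have h8 := Real.log_two_lt_d9
    linarith
  have hK1 : 0 ≤ K := by
    rw [hK]
    exact mul_nonneg ha0.le (sub_nonneg.2 (Real.log_le_log ha0 hab))
  have hK2 : K ≤ b - a := by
    have h5 : Real.log (b / a) ≤ b / a - 1 := Real.log_le_sub_one_of_pos (by positivity)
    rw [Real.log_div hb0.ne' ha0.ne'] at h5
    have h6 : a * (Real.log b - Real.log a) ≤ a * (b / a - 1) :=
      mul_le_mul_of_nonneg_left h5 ha0.le
    have h7 : a * (b / a - 1) = b - a := by field_simp
    rw [hK]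
    linarith
  have hmain : b / (2 * Real.pi) * (Real.log b - c) - a / (2 * Real.pi) * (Real.log a - c) -
      (b - a) * Real.log T / (2 * Real.pi) = ((b - a) * L + K - c * (b - a)) / (2 * Real.pi) := by
    rw [hL, hK]
    field_simp
    ring
  have hba : 0 ≤ b - a := by linarith
  have hm2 : |((b - a) * L + K - c * (b - a)) / (2 * Real.pi)| ≤ (4 + |c|) * (b - a) := by
    rw [abs_div, abs_of_pos (by positivity : (0 : ℝ) < 2 * Real.pi), div_le_iff₀ (by positivity)]
    have h5 : |(b - a) * L + K - c * (b - a)| ≤ (4 + |c|) * (b - a) := by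
      have h6 := neg_abs_le c
      have h7 := le_abs_self c
      rw [abs_le]
      constructor <;> nlinarith
    have h6 : 0 ≤ (4 + |c|) * (b - a) := by positivity
    nlinarith
  rw [← hmain] at hm2
  have e : NN b - NN a - (b - a) * Real.log T / (2 * Real.pi) =
      (NN b - b / (2 * Real.pi) * (Real.log b - c)) - (NN a - a / (2 * Real.pi) * (Real.log a - c)) +
      (b / (2 * Real.pi) * (Real.log b - c) - a / (2 * Real.pi) * (Real.log a - c) -
      (b - a) * Real.log T / (2 * Real.pi)) := by ring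
  rw [e]
  refine (abs_add_le _ _).trans ?_
  refine (add_le_add_left (abs_sub _ _) _).trans ?_
  nlinarith [mul_nonneg hC hba, mul_nonneg hC hsq0, abs_nonneg c,
    mul_nonneg (abs_nonneg c) hsq0]

theorem total : ∃ C T₀ : ℝ, 0 ≤ C ∧ 2 ≤ T₀ ∧ ∀ T : ℝ, T₀ ≤ T → ∀ a b : ℝ, T ≤ a → a ≤ b → b ≤ 4 * T →
    |NN b - NN a - (b - a) * Real.log T / (2 * Real.pi)| ≤ C * (b - a) + C * Real.sqrt T := by
  obtain ⟨C, hC, h⟩ := OrdF_total
  exact ⟨C, 2, hC, le_rfl, fun T hT a b ha hab hb =>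
    h T hT a b (by linarith) hab (by linarith)⟩

private lemma OrdF_large (G : ℝ) : ∃ n₀ : ℕ, 1 ≤ n₀ ∧ ∀ n : ℕ, n₀ ≤ n → G ≤ ordinate n := by
  refine ⟨zeroCount G + 1, by omega, fun n hn => ?_⟩
  by_contra hcon
  rw [not_le] at hcon
  have := ord_lt (m := n) (by omega) hcon
  omega

private lemma OrdF_index : ∃ G : ℝ, 1 ≤ G ∧ ∀ n : ℕ, 1 ≤ n → G ≤ ordinate n →
    (n : ℝ) ≤ ordinate n ^ 2 := by
  obtain ⟨c, C, hC, hr⟩ := OrdF_rvm
  refine ⟨8 * (2 + |c| + C) + 1, by have := abs_nonneg c; linarith, fun n hn hg => ?_⟩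
  · obtain ⟨g, hgdef⟩ : ∃ g, g = ordinate n := ⟨_, rfl⟩
    rw [← hgdef] at hg ⊢
    have hc0 := abs_nonneg c
    have hπ := Real.pi_gt_three
    have h1 : n ≤ zeroCount (g + 1) := ord_lt hn (by rw [← hgdef]; linarith)
    have h2 : (n : ℝ) ≤ NN (g + 1) := by
      unfold NN
      exact_mod_cast h1
    have h3 := (abs_le.1 (hr (g + 1) (by linarith))).2
    have h4 := OrdF_sqrt_le (by linarith : 1 ≤ g + 1)
    have h5 : Real.log (g + 1) ≤ (g + 1) / 8 + 2 := by
      have h6 : Real.log ((g + 1) / 8) ≤ (g + 1) / 8 - 1 :=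
        Real.log_le_sub_one_of_pos (by linarith)
      rw [Real.log_div (by linarith) (by norm_num)] at h6
      have h7 : Real.log 8 = 3 * Real.log 2 := by
        rw [show (8 : ℝ) = 2 ^ 3 by norm_num, Real.log_pow]
        norm_num
      have h8 := Real.log_two_lt_d9
      rw [h7] at h6
      linarith
    have h6 : (g + 1) / (2 * Real.pi) * (Real.log (g + 1) - c) ≤
        (g + 1) * ((g + 1) / 8 + 2 + |c|) := by
      have h7 : Real.log (g + 1) - c ≤ (g + 1) / 8 + 2 + |c| := by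
        have := neg_abs_le c
        linarith
      have h8 : (g + 1) / (2 * Real.pi) ≤ g + 1 := div_le_self (by linarith) (by linarith)
      have h9 : (0 : ℝ) ≤ (g + 1) / 8 + 2 + |c| := by
        have : 0 ≤ g := by linarith
        positivity
      calc (g + 1) / (2 * Real.pi) * (Real.log (g + 1) - c) ≤
          (g + 1) / (2 * Real.pi) * ((g + 1) / 8 + 2 + |c|) :=
            mul_le_mul_of_nonneg_left h7 (div_nonneg (by linarith) (by linarith))
        _ ≤ _ := mul_le_mul_of_nonneg_right h8 h9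
    have h7 : C * Real.sqrt (g + 1) ≤ C * (g + 1) := mul_le_mul_of_nonneg_left h4 hC
    have h8 : (n : ℝ) ≤ (g + 1) * ((g + 1) / 4) := by nlinarith
    nlinarith

theorem ord_shift (C : ℝ) (hC : 0 ≤ C) : ∃ n₀ : ℕ, ∀ n m : ℕ, n₀ ≤ n → (m : ℝ) ≤ C * Real.log n →
    ordinate (n + m) ≤ ordinate n + ordinate n / 8 := by
  obtain ⟨K, hK, htot⟩ := OrdF_total
  obtain ⟨G, hG1, hG⟩ := OrdF_index
  have hπ0 := Real.pi_pos
  obtain ⟨n₀, hn1, hn₀⟩ := OrdF_large (max (max G 16)
    (Real.exp (2 * Real.pi * (K + 16 * (1 + K + 2 * C)))))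
  refine ⟨n₀, fun n m hn hm => ?_⟩
  obtain ⟨g, hg⟩ : ∃ g, g = ordinate n := ⟨_, rfl⟩
  have h0 := hn₀ n hn
  have h1 := hG n (by omega) (((le_max_left _ _).trans (le_max_left _ _)).trans h0)
  rw [← hg] at h0 h1 ⊢
  have hg16 : 16 ≤ g := ((le_max_right _ _).trans (le_max_left _ _)).trans h0
  have hg0 : 0 < g := by linarith
  have hlog : 2 * Real.pi * (K + 16 * (1 + K + 2 * C)) ≤ Real.log g :=
    (Real.le_log_iff_exp_le hg0).2 ((le_max_right _ _).trans h0)
  have hnpos : (0 : ℝ) < n := by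
    have : 0 < n := by omega
    exact_mod_cast this
  have hlogn : Real.log n ≤ 2 * g := by
    have h2 : Real.log n ≤ Real.log (g ^ 2) := Real.log_le_log hnpos h1
    rw [Real.log_pow] at h2
    have h3 := Real.log_le_sub_one_of_pos hg0
    push_cast at h2
    linarith
  have h2 := (abs_le.1 (htot g (by linarith) (g + 1) (g + g / 8) (by linarith) (by linarith)
    (by linarith))).1
  have h3 : n ≤ zeroCount (g + 1) := ord_lt (by omega) (by rw [← hg]; linarith)
  have h4 : (n : ℝ) ≤ NN (g + 1) := by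
    unfold NN
    exact_mod_cast h3
  have h5 := OrdF_sqrt_le (by linarith : 1 ≤ g)
  have h6 : (g / 8 - 1) * (K + 16 * (1 + K + 2 * C)) ≤
      (g / 8 - 1) * Real.log g / (2 * Real.pi) := by
    rw [le_div_iff₀ (by positivity)]
    have := mul_le_mul_of_nonneg_left hlog (by linarith : (0 : ℝ) ≤ g / 8 - 1)
    nlinarith
  have e : g + g / 8 - (g + 1) = g / 8 - 1 := by ring
  rw [e] at h2
  have h7 : (n : ℝ) + m ≤ NN (g + g / 8) := by
    have h8 : K * Real.sqrt g ≤ K * g := mul_le_mul_of_nonneg_left h5 hK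
    have h9 : (m : ℝ) ≤ C * (2 * g) := hm.trans (mul_le_mul_of_nonneg_left hlogn hC)
    have h10 : g / 16 * (16 * (1 + K + 2 * C)) ≤ (g / 8 - 1) * (16 * (1 + K + 2 * C)) :=
      mul_le_mul_of_nonneg_right (by linarith) (by positivity)
    nlinarith
  have h8 : n + m ≤ zeroCount (g + g / 8) := by
    unfold NN at h7
    exact_mod_cast h7
  exact csInf_le (OrdF_bdd (by omega)) h8

theorem ord_asym : ∃ n₀ : ℕ, 1 ≤ n₀ ∧ ∀ n : ℕ, n₀ ≤ n → 2 ≤ ordinate n ∧
    (n : ℝ) ≤ ordinate n * Real.log (ordinate n) ∧ ordinate n * Real.log (ordinate n) ≤ 7 * n := by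
  obtain ⟨c, C, hC, hr⟩ := OrdF_rvm
  obtain ⟨n₀, hn1, hn₀⟩ := OrdF_large (max 200 (Real.exp (11 * (1 + |c|) + 70 * C)))
  refine ⟨n₀, hn1, fun n hn => ?_⟩
  obtain ⟨g, hg⟩ : ∃ g, g = ordinate n := ⟨_, rfl⟩
  have h0 := hn₀ n hn
  rw [← hg] at h0 ⊢
  have hg2 : 200 ≤ g := (le_max_left _ _).trans h0
  have hg0 : 0 < g := by linarith
  have hlog : 11 * (1 + |c|) + 70 * C ≤ Real.log g :=
    (Real.le_log_iff_exp_le hg0).2 ((le_max_right _ _).trans h0)
  have hc0 := abs_nonneg c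
  have hc1 := neg_abs_le c
  have hc2 := le_abs_self c
  have hπ := Real.pi_gt_three
  have hπ2 := Real.pi_lt_d2
  refine ⟨by linarith, ?_, ?_⟩
  · have h1 : n ≤ zeroCount (g + 1) := ord_lt (by omega) (by rw [← hg]; linarith)
    have h2 : (n : ℝ) ≤ NN (g + 1) := by
      unfold NN
      exact_mod_cast h1
    have h3 := (abs_le.1 (hr (g + 1) (by linarith))).2
    have h4 := OrdF_sqrt_le (by linarith : 1 ≤ g + 1)
    have h5 : Real.log (g + 1) ≤ Real.log g + 1 := by
      have h6 : Real.log ((g + 1) / g) ≤ (g + 1) / g - 1 :=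
        Real.log_le_sub_one_of_pos (by positivity)
      rw [Real.log_div (by linarith) (by linarith)] at h6
      have h7 : (g + 1) / g - 1 = 1 / g := by
        field_simp
        ring
      have h8 : 1 / g ≤ 1 := by
        rw [div_le_one hg0]
        linarith
      linarith
    have h6 : (g + 1) / (2 * Real.pi) * (Real.log (g + 1) - c) ≤
        g / 3 * (Real.log g + 1 + |c|) := by
      have h7 : (g + 1) / (2 * Real.pi) ≤ g / 3 := by
        rw [div_le_div_iff₀ (by positivity) (by norm_num)]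
        nlinarith
      have h8 : 0 ≤ Real.log g + 1 + |c| := by linarith
      calc (g + 1) / (2 * Real.pi) * (Real.log (g + 1) - c) ≤
          (g + 1) / (2 * Real.pi) * (Real.log g + 1 + |c|) :=
            mul_le_mul_of_nonneg_left (by linarith) (div_nonneg (by linarith) (by linarith))
        _ ≤ _ := mul_le_mul_of_nonneg_right h7 h8
    have h7 : C * Real.sqrt (g + 1) ≤ C * (g + 1) := mul_le_mul_of_nonneg_left h4 hC
    nlinarith [mul_nonneg hC hg0.le, mul_le_mul_of_nonneg_left hlog hg0.le]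
  · have h1 : zeroCount (g - 1) < n := lt_ord (by omega) (by rw [← hg]; linarith)
    have h2 : NN (g - 1) ≤ n := by
      unfold NN
      exact_mod_cast h1.le
    have h3 := (abs_le.1 (hr (g - 1) (by linarith))).1
    have h4 := OrdF_sqrt_le (by linarith : 1 ≤ g - 1)
    have h5 : Real.log g - 1 ≤ Real.log (g - 1) := by
      have h6 : Real.log (g / (g - 1)) ≤ g / (g - 1) - 1 :=
        Real.log_le_sub_one_of_pos (div_pos hg0 (by linarith))
      rw [Real.log_div (by linarith) (by linarith)] at h6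
      have h7 : g / (g - 1) - 1 = 1 / (g - 1) := by
        have : g - 1 ≠ 0 := by linarith
        field_simp
        ring
      have h8 : 1 / (g - 1) ≤ 1 := by
        rw [div_le_one (by linarith)]
        linarith
      linarith
    have h6 : g * (11 / 70) * (Real.log g - 1 - |c|) ≤
        (g - 1) / (2 * Real.pi) * (Real.log (g - 1) - c) := by
      have h7 : g * (11 / 70) ≤ (g - 1) / (2 * Real.pi) := by
        rw [le_div_iff₀ (by positivity)]
        nlinarith
      have h8 : 0 ≤ Real.log g - 1 - |c| := by linarith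
      calc g * (11 / 70) * (Real.log g - 1 - |c|) ≤
          (g - 1) / (2 * Real.pi) * (Real.log g - 1 - |c|) := mul_le_mul_of_nonneg_right h7 h8
        _ ≤ _ := mul_le_mul_of_nonneg_left (by linarith) (div_nonneg (by linarith) (by linarith))
    have h7 : C * Real.sqrt (g - 1) ≤ C * g := mul_le_mul_of_nonneg_left (by linarith) hC
    nlinarith [mul_nonneg hC hg0.le, mul_le_mul_of_nonneg_left hlog hg0.le]

/-- finitely many indices have ordinates in a bounded interval -/
theorem ord_window : ∃ C T₀ : ℝ, 0 ≤ C ∧ 2 ≤ T₀ ∧ ∀ T : ℝ, T₀ ≤ T → ∀ a b : ℝ, T ≤ a → a ≤ b → b ≤ 4 * T →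
    ∀ F : Finset ℕ, (∀ n ∈ F, 1 ≤ n ∧ a ≤ ordinate n ∧ ordinate n ≤ b) →
      (F.card : ℝ) ≤ (b - a) * Real.log T + C * Real.sqrt T := by
  obtain ⟨C, hC, htot⟩ := OrdF_total
  refine ⟨1 + 3 * C, max 2 (Real.exp (2 * C)), by positivity, le_max_left _ _,
    fun T hT a b ha hab hb F hF => ?_⟩
  have hT2 : 2 ≤ T := (le_max_left _ _).trans hT
  have hT0 : 0 < T := by linarith
  have hlog : 2 * C ≤ Real.log T :=
    (Real.le_log_iff_exp_le hT0).2 ((le_max_right _ _).trans hT)
  have hπ := Real.pi_gt_three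
  have h1 := (abs_le.1 (htot T hT2 (a - 1) (b + 1) (by linarith) (by linarith) (by linarith))).2
  have hsub : F ⊆ Finset.Ioc (zeroCount (a - 1)) (zeroCount (b + 1)) := by
    intro n hn
    obtain ⟨h2, h3, h4⟩ := hF n hn
    rw [Finset.mem_Ioc]
    exact ⟨lt_ord h2 (by linarith), ord_lt h2 (by linarith)⟩
  have hmono := Pool.Agent.Lib.MP_ec260d_nt.zeroCount_mono (by linarith : a - 1 ≤ b + 1)
  have hcard : (F.card : ℝ) ≤ NN (b + 1) - NN (a - 1) := by
    have h2 := Finset.card_le_card hsub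
    rw [Nat.card_Ioc] at h2
    unfold NN
    rw [← Nat.cast_sub hmono]
    exact_mod_cast h2
  have hs1 : 1 ≤ Real.sqrt T := by
    rw [Real.le_sqrt' one_pos]
    linarith
  have hlT : Real.log T ≤ 2 * Real.sqrt T := by
    have h2 := Real.log_le_sub_one_of_pos (Real.sqrt_pos.2 hT0)
    rw [Real.log_sqrt hT0.le] at h2
    linarith
  have hlT0 : 0 ≤ Real.log T := Real.log_nonneg (by linarith)
  have h2 : (b + 1 - (a - 1)) * Real.log T / (2 * Real.pi) ≤ (b - a + 2) * Real.log T / 6 := by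
    have e : b + 1 - (a - 1) = b - a + 2 := by ring
    rw [e]
    exact div_le_div_of_nonneg_left (mul_nonneg (by linarith) hlT0) (by norm_num) (by linarith)
  have hba : 0 ≤ b - a := by linarith
  nlinarith [mul_le_mul_of_nonneg_left hlog hba, mul_le_mul_of_nonneg_left hs1 hC]

end Pool.Agent.Lib.MP_ec260d_ntB
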