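import Mathlib
import Pool.Agent.Lib.MP_ec260d_ntB.Q.QDefs

/-!
# JOB Q/PolyFam: the polynomial in the local coordinates (about 220 lines)

Let `φ : MvPolynomial (Fin (k+1)) ℂ →ₐ MvPolynomial (Option (Fin k)) ℂ` (variables `none = t`, `some l = y_l`) be the substitution `X_i ↦ t + h ∑_{l < i} (g_l + R_l y_l)`.  It is injective: the inverse is `t ↦ X_0`, `y_l ↦ ((X_{l+1} - X_l)/h - g_l)/R_l` (check on generators with `MvPolynomial.algHom_ext`), so `φ P ≠ 0`.
`φ` does not increase the total degree: each `φ X_i` has total degree `≤ 1`, so for a monomial of degree `d` the image has total degree `≤ d` (`MvPolynomial.totalDegree_finset_prod`/`totalDegree_pow`), and `totalDegree_finset_sum`.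
So every exponent of every variable in `φ P` is `≤ D`: collect by the exponents `α : Fin k → Fin (D+1)` of the `y_l`: `q α = ∑_{n ≤ D} (coefficient of t^n y^α) X^n`.
(`MvPolynomial.optionEquivRight`/`optionEquivLeft` may help, or define `q α` directly by the coefficients and evaluate `φ P` as the sum over its support, `MvPolynomial.eval_eq`.)  Evaluate at `t, y`: `eval (..) P = eval (t, y) (φ P) = ∑_α (q α)(t) y^α`.  Some `q α ≠ 0` since `φ P ≠ 0`.
-/

namespace Pool.Agent.Lib.MP_ec260d_ntB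

private theorem PolyFam_tel {A : Type*} [AddCommGroup A] {k : ℕ} (f : Fin (k + 1) → A)
    (i : Fin (k + 1)) :
    (∑ l : Fin k, if (l : ℕ) < (i : ℕ) then f l.succ - f l.castSucc else 0) = f i - f 0 := by
  induction i using Fin.induction with
  | zero =>
    rw [sub_self]
    refine Finset.sum_eq_zero fun l _ => ?_
    rw [if_neg]
    exact Nat.not_lt_zero _
  | succ j ih =>
    have h1 : ∀ l : Fin k, (if (l : ℕ) < ((j.succ : Fin (k + 1)) : ℕ) then
        f l.succ - f l.castSucc else 0) =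
        (if (l : ℕ) < ((j.castSucc : Fin (k + 1)) : ℕ) then f l.succ - f l.castSucc else 0) +
          (if l = j then f l.succ - f l.castSucc else 0) := by
      intro l
      rw [Fin.val_succ, Fin.val_castSucc]
      by_cases h2 : (l : ℕ) < j
      · rw [if_pos (by omega), if_pos h2,
          if_neg (fun h => by rw [h] at h2; exact lt_irrefl _ h2), add_zero]
      · by_cases h3 : l = j
        · rw [if_pos (by rw [h3]; omega), if_neg h2, if_pos h3, zero_add]
        · have h4 : (l : ℕ) ≠ j := fun h => h3 (Fin.ext h)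
          rw [if_neg (by omega), if_neg h2, if_neg h3, add_zero]
    rw [Finset.sum_congr rfl fun l _ => h1 l, Finset.sum_add_distrib, ih, Finset.sum_ite_eq',
      if_pos (Finset.mem_univ j)]
    abel

/-- the linear form for the `i`-th variable -/
private noncomputable def PolyFam_L {k : ℕ} (h : ℝ) (g R : Fin k → ℝ) (i : Fin (k + 1)) :
    MvPolynomial (Option (Fin k)) ℂ :=
  MvPolynomial.X none + ∑ l : Fin k, if (l : ℕ) < (i : ℕ) then
    MvPolynomial.C ((h * g l : ℝ) : ℂ) +
      MvPolynomial.C ((h * R l : ℝ) : ℂ) * MvPolynomial.X (some l) else 0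

private theorem PolyFam_deg {k : ℕ} (h : ℝ) (g R : Fin k → ℝ) (i : Fin (k + 1)) :
    (PolyFam_L h g R i).totalDegree ≤ 1 := by
  unfold PolyFam_L
  refine (MvPolynomial.totalDegree_add _ _).trans (max_le ?_ ?_)
  · rw [MvPolynomial.totalDegree_X]
  · refine MvPolynomial.totalDegree_finsetSum_le fun l _ => ?_
    split_ifs
    · refine (MvPolynomial.totalDegree_add _ _).trans (max_le ?_ ?_)
      · rw [MvPolynomial.totalDegree_C]
        exact Nat.zero_le _
      · refine (MvPolynomial.totalDegree_mul _ _).trans ?_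
        rw [MvPolynomial.totalDegree_C, MvPolynomial.totalDegree_X]
    · rw [MvPolynomial.totalDegree_zero]
      exact Nat.zero_le _

private theorem PolyFam_deg2 {k D : ℕ} (P : MvPolynomial (Fin (k + 1)) ℂ)
    (hD : P.totalDegree ≤ D) (h : ℝ) (g R : Fin k → ℝ) :
    (MvPolynomial.aeval (PolyFam_L h g R) P).totalDegree ≤ D := by
  rw [MvPolynomial.aeval_def, MvPolynomial.eval₂_eq']
  refine MvPolynomial.totalDegree_finsetSum_le fun m hm => ?_
  refine (MvPolynomial.totalDegree_mul _ _).trans ?_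
  rw [MvPolynomial.algebraMap_eq, MvPolynomial.totalDegree_C, zero_add]
  refine (MvPolynomial.totalDegree_finsetProd _ _).trans ?_
  have h1 : ∑ i, m i ≤ P.totalDegree := by
    have h2 := MvPolynomial.le_totalDegree hm
    rwa [Finsupp.sum_fintype _ _ (fun _ => rfl)] at h2
  refine le_trans ?_ (h1.trans hD)
  refine Finset.sum_le_sum fun i _ => ?_
  refine (MvPolynomial.totalDegree_pow _ _).trans ?_
  have h3 := PolyFam_deg h g R i
  nlinarith

/-- the inverse substitution -/
private noncomputable def PolyFam_M {k : ℕ} (h : ℝ) (g R : Fin k → ℝ) :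
    Option (Fin k) → MvPolynomial (Fin (k + 1)) ℂ
  | none => MvPolynomial.X 0
  | some l => MvPolynomial.C ((1 / (h * R l) : ℝ) : ℂ) *
      (MvPolynomial.X l.succ - MvPolynomial.X l.castSucc -
        MvPolynomial.C ((h * g l : ℝ) : ℂ))

private theorem PolyFam_ne {k : ℕ} (P : MvPolynomial (Fin (k + 1)) ℂ) (hP : P ≠ 0) (h : ℝ)
    (hh : 0 < h) (g R : Fin k → ℝ) (hR : ∀ i, 0 < R i) :
    MvPolynomial.aeval (PolyFam_L h g R) P ≠ 0 := by
  obtain ⟨M, hM⟩ : ∃ M, M = PolyFam_M h g R := ⟨_, rfl⟩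
  have hM0 : M none = MvPolynomial.X 0 := by
    rw [hM]
    rfl
  have hM1 : ∀ l, M (some l) = MvPolynomial.C ((1 / (h * R l) : ℝ) : ℂ) *
      (MvPolynomial.X l.succ - MvPolynomial.X l.castSucc -
        MvPolynomial.C ((h * g l : ℝ) : ℂ)) := by
    intro l
    rw [hM]
    rfl
  have h1 : ∀ i, MvPolynomial.aeval M (PolyFam_L h g R i) = MvPolynomial.X i := by
    intro i
    unfold PolyFam_L
    rw [map_add, MvPolynomial.aeval_X, map_sum, hM0]
    have h2 : ∀ l : Fin k, MvPolynomial.aeval M (if (l : ℕ) < (i : ℕ) then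
        MvPolynomial.C ((h * g l : ℝ) : ℂ) +
          MvPolynomial.C ((h * R l : ℝ) : ℂ) * MvPolynomial.X (some l) else 0) =
        if (l : ℕ) < (i : ℕ) then (MvPolynomial.X l.succ : MvPolynomial (Fin (k + 1)) ℂ) -
          MvPolynomial.X l.castSucc else 0 := by
      intro l
      split_ifs
      · rw [map_add, map_mul, MvPolynomial.aeval_X, MvPolynomial.aeval_C, MvPolynomial.aeval_C,
          hM1, MvPolynomial.algebraMap_eq, ← mul_assoc, ← MvPolynomial.C_mul]
        have h3 : ((h * R l : ℝ) : ℂ) * ((1 / (h * R l) : ℝ) : ℂ) = 1 := by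
          rw [← Complex.ofReal_mul, mul_one_div_cancel (mul_pos hh (hR l)).ne',
            Complex.ofReal_one]
        rw [h3, MvPolynomial.C_1]
        ring
      · exact map_zero _
    rw [Finset.sum_congr rfl fun l _ => h2 l,
      PolyFam_tel (fun i => (MvPolynomial.X i : MvPolynomial (Fin (k + 1)) ℂ)) i]
    ring
  intro h0
  apply hP
  have h2 : (MvPolynomial.aeval M).comp (MvPolynomial.aeval (PolyFam_L h g R)) =
      AlgHom.id ℂ (MvPolynomial (Fin (k + 1)) ℂ) := by
    refine MvPolynomial.algHom_ext fun i => ?_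
    rw [AlgHom.comp_apply, MvPolynomial.aeval_X, h1]
    rfl
  have h3 := congrArg (fun f : MvPolynomial (Fin (k + 1)) ℂ →ₐ[ℂ] MvPolynomial (Fin (k + 1)) ℂ =>
    f P) h2
  simp only [AlgHom.comp_apply, h0, map_zero] at h3
  exact h3.symm

private theorem PolyFam_eval {k : ℕ} (P : MvPolynomial (Fin (k + 1)) ℂ) (h : ℝ)
    (g R : Fin k → ℝ) (t : ℝ) (y : Fin k → ℝ) :
    MvPolynomial.eval (fun i : Fin (k + 1) =>
      ((t + h * pos (fun l => g l + R l * y l) i : ℝ) : ℂ)) P =
    MvPolynomial.eval (fun o : Option (Fin k) => o.elim (t : ℂ) fun l => ((y l : ℝ) : ℂ))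
      (MvPolynomial.aeval (PolyFam_L h g R) P) := by
  have h1 : ∀ i, MvPolynomial.eval (fun o : Option (Fin k) => o.elim (t : ℂ) fun l =>
      ((y l : ℝ) : ℂ)) (PolyFam_L h g R i) =
        ((t + h * pos (fun l => g l + R l * y l) i : ℝ) : ℂ) := by
    intro i
    unfold PolyFam_L pos
    rw [map_add, MvPolynomial.eval_X, map_sum, Finset.mul_sum, Complex.ofReal_add,
      Complex.ofReal_sum]
    congr 1
    refine Finset.sum_congr rfl fun l _ => ?_
    split_ifs
    · rw [map_add, map_mul, MvPolynomial.eval_X, MvPolynomial.eval_C, MvPolynomial.eval_C]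
      show ((h * g l : ℝ) : ℂ) + ((h * R l : ℝ) : ℂ) * ((y l : ℝ) : ℂ) = _
      push_cast
      ring
    · rw [map_zero, mul_zero, Complex.ofReal_zero]
  have h2 := MvPolynomial.map_aeval (PolyFam_L h g R) (MvPolynomial.eval
    (fun o : Option (Fin k) => o.elim (t : ℂ) fun l => ((y l : ℝ) : ℂ))) P
  rw [h2, MvPolynomial.eval]
  have h3 : (MvPolynomial.eval (fun o : Option (Fin k) => o.elim (t : ℂ) fun l =>
      ((y l : ℝ) : ℂ))).comp (algebraMap ℂ (MvPolynomial (Option (Fin k)) ℂ)) =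
      RingHom.id ℂ := by
    ext a
    rw [RingHom.comp_apply, MvPolynomial.algebraMap_eq, MvPolynomial.eval_C, RingHom.id_apply]
  rw [h3]
  congr 2
  funext i
  exact (h1 i).symm

/-- the exponent with `n` at `none` and `α` at the other variables -/
private noncomputable def PolyFam_e {k D : ℕ} (α : Fin k → Fin (D + 1)) (n : Fin (D + 1)) :
    Option (Fin k) →₀ ℕ :=
  Finsupp.equivFunOnFinite.symm fun o => o.elim (n : ℕ) fun l => (α l : ℕ)

private theorem PolyFam_e_none {k D : ℕ} (α : Fin k → Fin (D + 1)) (n : Fin (D + 1)) :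
    PolyFam_e α n none = n := rfl

private theorem PolyFam_e_some {k D : ℕ} (α : Fin k → Fin (D + 1)) (n : Fin (D + 1))
    (l : Fin k) : PolyFam_e α n (some l) = α l := rfl

private theorem PolyFam_e_inj {k D : ℕ} :
    Function.Injective fun p : (Fin k → Fin (D + 1)) × Fin (D + 1) => PolyFam_e p.1 p.2 := by
  rintro ⟨α, n⟩ ⟨β, m⟩ h
  have h1 := DFunLike.congr_fun h none
  have h2 : ∀ l, (α l : ℕ) = β l := fun l => DFunLike.congr_fun h (some l)
  rw [Prod.mk.injEq]
  exact ⟨funext fun l => Fin.ext (h2 l), Fin.ext h1⟩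

private theorem PolyFam_e_surj {k D : ℕ} (F : MvPolynomial (Option (Fin k)) ℂ)
    (hD : F.totalDegree ≤ D) (m : Option (Fin k) →₀ ℕ) (hm : m ∈ F.support) :
    ∃ p : (Fin k → Fin (D + 1)) × Fin (D + 1), PolyFam_e p.1 p.2 = m := by
  have h1 : ∀ o, m o < D + 1 := by
    intro o
    have h2 := MvPolynomial.le_totalDegree hm
    rw [Finsupp.sum_fintype _ _ (fun _ => rfl)] at h2
    have h3 : m o ≤ ∑ i, m i := Finset.single_le_sum (fun _ _ => Nat.zero_le _)
      (Finset.mem_univ o)
    omega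
  refine ⟨(fun l => ⟨m (some l), h1 _⟩, ⟨m none, h1 _⟩), ?_⟩
  ext o
  rcases o with _ | l
  · rfl
  · rfl

theorem poly_fam (k D : ℕ) (P : MvPolynomial (Fin (k + 1)) ℂ) (hP : P ≠ 0) (hD : P.totalDegree ≤ D)
    (h : ℝ) (hh : 0 < h) (g R : Fin k → ℝ) (hR : ∀ i, 0 < R i) :
    ∃ q : (Fin k → Fin (D + 1)) → Polynomial ℂ, (∀ α, (q α).natDegree ≤ D) ∧ (∃ α, q α ≠ 0) ∧
      ∀ (t : ℝ) (y : Fin k → ℝ),
        MvPolynomial.eval (fun i : Fin (k + 1) =>
          ((t + h * pos (fun l => g l + R l * y l) i : ℝ) : ℂ)) P = ev (qe q t) y := by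
  classical
  obtain ⟨F, hF⟩ : ∃ F, F = MvPolynomial.aeval (PolyFam_L h g R) P := ⟨_, rfl⟩
  have hFD : F.totalDegree ≤ D := hF ▸ PolyFam_deg2 P hD h g R
  have hF0 : F ≠ 0 := hF ▸ PolyFam_ne P hP h hh g R hR
  have hFe : ∀ (t : ℝ) (y : Fin k → ℝ), MvPolynomial.eval (fun i : Fin (k + 1) =>
      ((t + h * pos (fun l => g l + R l * y l) i : ℝ) : ℂ)) P =
    MvPolynomial.eval (fun o : Option (Fin k) => o.elim (t : ℂ) fun l => ((y l : ℝ) : ℂ)) F :=
    fun t y => hF ▸ PolyFam_eval P h g R t y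
  refine ⟨fun α => ∑ n : Fin (D + 1), Polynomial.monomial (n : ℕ)
    (MvPolynomial.coeff (PolyFam_e α n) F), fun α => ?_, ?_, fun t y => ?_⟩
  · refine Polynomial.natDegree_sum_le_of_forall_le _ _ fun n _ => ?_
    exact (Polynomial.natDegree_monomial_le _).trans (Nat.lt_succ_iff.1 n.2)
  · obtain ⟨m, hm⟩ := MvPolynomial.ne_zero_iff.1 hF0
    obtain ⟨⟨α, n⟩, hp⟩ := PolyFam_e_surj F hFD m (MvPolynomial.mem_support_iff.2 hm)
    refine ⟨α, fun h0 => hm ?_⟩
    have h1 := congrArg (fun p => Polynomial.coeff p (n : ℕ)) h0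
    simp only [Polynomial.finsetSum_coeff, Polynomial.coeff_monomial, Polynomial.coeff_zero] at h1
    rw [← hp, ← h1]
    rw [Finset.sum_eq_single n]
    · rw [if_pos rfl]
    · intro b _ hb
      rw [if_neg]
      exact fun h => hb (Fin.ext h)
    · intro h
      exact absurd (Finset.mem_univ n) h
  · rw [hFe, MvPolynomial.eval_eq']
    have h1 : F.support ⊆ Finset.univ.image fun p : (Fin k → Fin (D + 1)) × Fin (D + 1) =>
        PolyFam_e p.1 p.2 := by
      intro m hm
      obtain ⟨p, hp⟩ := PolyFam_e_surj F hFD m hm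
      exact Finset.mem_image.2 ⟨p, Finset.mem_univ p, hp⟩
    rw [Finset.sum_subset h1 fun m _ hm => by
      rw [MvPolynomial.notMem_support_iff.1 hm, zero_mul],
      Finset.sum_image fun a _ b _ hab => PolyFam_e_inj hab, Fintype.sum_prod_type]
    unfold ev qe
    refine Finset.sum_congr rfl fun α _ => ?_
    rw [Polynomial.eval_finsetSum, Finset.sum_mul]
    refine Finset.sum_congr rfl fun n _ => ?_
    rw [Polynomial.eval_monomial, Fintype.prod_option, PolyFam_e_none]
    simp only [PolyFam_e_some, Option.elim]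
    ring

end Pool.Agent.Lib.MP_ec260d_ntB
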