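import Mathlib
import Pool.Agent.Lib.MP_ec260d_ntB.Defs
import Pool.Agent.Lib.MP_ec260d_ntB.Q.QDefs
import Pool.Agent.Lib.MP_ec260d_nt.ODefs

/-!
# The properties of a set of good heights (module IV)
-/

namespace Pool.Agent.Lib.MP_ec260d_ntB

open Set

/-- the properties of a good set `G` of heights; `g` are the gaps of the indices -/
structure GoodH (k : ℕ) (δ δ' W T A B : ℝ) (g : Fin k → ℝ) (G : Set ℝ) : Prop where
  sub : G ⊆ Icc T (3 * T)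
  one : ∀ t₁ ∈ G, ∀ t₂ ∈ G, t₁ ≤ t₂ →
    |NN t₂ - NN t₁ - (LL t₂ - LL t₁) - (YY δ W T t₂ - YY δ W T t₁)| ≤ A
  osc : ∀ t ∈ G, ∀ s : ℝ, |s - t| ≤ (2 * B + 4) * hT T → |YY δ W T s - YY δ W T t| ≤ A
  flat : ∀ t ∈ G, ∀ s : ℝ, |s - t| ≤ (2 * B + 4) * hT T →
    |YY δ W T s - ∑ j ∈ Finset.range (JJ T), YB δ' W T j s| ≤ A
  blk : ∀ t ∈ G, ∀ s : ℝ, |s - t| ≤ (2 * B + 4) * hT T → ∀ j ∈ Finset.range (JJ T),
    |YB δ' W T j s| ≤ dd δ' j / (100 * ((k : ℝ) + 1))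

/-- displacement: for the gap `x` (in mean spacings) and the tolerance `ρ` -/
def DispOK (δ W T A x ρ : ℝ) (t : ℝ) : Prop :=
  ∀ u : ℝ, u = hT T * max 0 (x + ρ) ∨ u = hT T * max 0 (x - ρ) →
    |NN (t + u) - NN t - (LL (t + u) - LL t) - (YY δ W T (t + u) - YY δ W T t)| ≤ A ∧
      |YY δ W T (t + u) - YY δ W T t| ≤ ρ / 4

/-- the set of the base points `t` for which the increments of the prime sums fit to the grid gaps `v` -/
def EvS (k : ℕ) (δ' W T K : ℝ) (g : Fin k → ℝ) (v : Fin k → ℤ) : Set ℝ :=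
  {t : ℝ | (∀ i : Fin k, |(∑ j ∈ Finset.range (JJ T), (YB δ' W T j (t + hT T * pos (fun l => (v l : ℝ)) i.succ) -
      YB δ' W T j (t + hT T * pos (fun l => (v l : ℝ)) i.castSucc))) - (g i - v i)| ≤ K) ∧
    ∀ j ∈ Finset.range (JJ T), ∀ i : Fin (k + 1),
      |YB δ' W T j (t + hT T * pos (fun l => (v l : ℝ)) i)| ≤ dd δ' j / (100 * ((k : ℝ) + 1))}

/-- the tolerance for the gap `x` -/
noncomputable def tol (A' x : ℝ) : ℝ := A' * Real.sqrt (Real.log (2 + x))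

/-- there are good heights near all the ordinates with the indices `n + m i` -/
def Nice (k : ℕ) (T B : ℝ) (m : Fin (k + 1) → ℕ) (G : Set ℝ) (n : ℕ) : Prop :=
  ∀ i : Fin (k + 1), ∃ τ ∈ G, |τ - Pool.Agent.Lib.MP_ec260d_nt.ordinate (n + m i)| ≤ B * hT T ∧
    |NN τ - ((n + m i : ℕ) : ℝ)| ≤ B

end Pool.Agent.Lib.MP_ec260d_ntB
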