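import Mathlib
import Pool.Agent.Lib.MP_ec260d_ntB.Q.Intv

/-!
# JOB Q/UnionB: union over the grid points (about 200 lines)

Let `V` be the finite set of `v : Fin k → ℤ` with `|v i - g i| ≤ R i` (at most `∏ (2 R i + 1)` points: `Int` points of an interval of length `2 R i`; `Fintype.piFinset` of `Finset.Icc ⌈g i - R i⌉ ⌊g i + R i⌋`, each of cardinality `≤ 2 R i + 1`).  Put `I_v = {t ∈ Icc T (2T) : ‖ev (qe q t) y_v‖ ≤ η sqrt (nr (qe q t))}`, `y_v = (v - g)/R`.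
The set in the statement is `⋃_{v ∈ V} (Ev v ∩ I_v)`; by `intv_q` (with `S = Ev v`) `volume (Ev v ∩ I_v) ≤ c₁ volume (I_v) + (2D+1) e`.
`∑_{v ∈ V} volume (I_v) = ∫_{Icc T (2T)} #{v ∈ V : t ∈ I_v} dt ≤ T ε₃ ∏ R i`: for `t` with `qe q t ≠ 0` the number is `≤ ε₃ ∏ R i` by `hcount`; the `t` with `qe q t = 0` are finitely many (some `q α ≠ 0`).  (`I_v` is closed: continuous functions of `t`.  Sum of `toReal` of measures = integral of the sum of indicators, `MeasureTheory.lintegral` or `integral_finset_sum`.)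
-/

namespace Pool.Agent.Lib.MP_ec260d_ntB

open MeasureTheory Set

private theorem UnionB_nr {k D : ℕ} (c : (Fin k → Fin (D + 1)) → ℂ) : 0 ≤ nr c :=
  Finset.sum_nonneg fun _ _ => sq_nonneg _

private theorem UnionB_qe {k D : ℕ} (q : (Fin k → Fin (D + 1)) → Polynomial ℂ)
    (α : Fin k → Fin (D + 1)) : Continuous fun t : ℝ => qe q t α := by
  unfold qe
  exact (Polynomial.continuous (q α)).comp Complex.continuous_ofReal

private theorem UnionB_ev {k D : ℕ} (q : (Fin k → Fin (D + 1)) → Polynomial ℂ)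
    (y : Fin k → ℝ) : Continuous fun t : ℝ => ev (qe q t) y := by
  unfold ev
  exact continuous_finsetSum _ fun α _ => (UnionB_qe q α).mul continuous_const

private theorem UnionB_nrc {k D : ℕ} (q : (Fin k → Fin (D + 1)) → Polynomial ℂ) :
    Continuous fun t : ℝ => nr (qe q t) := by
  unfold nr
  exact continuous_finsetSum _ fun α _ => (UnionB_qe q α).norm.pow 2

private theorem UnionB_meas {k D : ℕ} (q : (Fin k → Fin (D + 1)) → Polynomial ℂ)
    (y : Fin k → ℝ) (T η : ℝ) : MeasurableSet {t : ℝ | t ∈ Icc T (2 * T) ∧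
      ‖ev (qe q t) y‖ ≤ η * Real.sqrt (nr (qe q t))} := by
  have h1 : IsClosed {t : ℝ | ‖ev (qe q t) y‖ ≤ η * Real.sqrt (nr (qe q t))} :=
    isClosed_le (UnionB_ev q y).norm (continuous_const.mul (UnionB_nrc q).sqrt)
  exact measurableSet_Icc.inter h1.measurableSet

private theorem UnionB_null {k D : ℕ} (q : (Fin k → Fin (D + 1)) → Polynomial ℂ)
    (hne : ∃ α, q α ≠ 0) : volume {t : ℝ | qe q t = 0} = 0 := by
  obtain ⟨α, hα⟩ := hne
  have h1 : {t : ℝ | qe q t = 0} ⊆ (fun t : ℝ => (t : ℂ)) ⁻¹' ((q α).rootSet ℂ) := by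
    intro t ht
    have h2 : qe q t = 0 := ht
    have h3 : (q α).eval (t : ℂ) = 0 := congrFun h2 α
    rw [Set.mem_preimage, Polynomial.mem_rootSet]
    exact ⟨hα, by rw [Polynomial.coe_aeval_eq_eval]; exact h3⟩
  have h2 : ((fun t : ℝ => (t : ℂ)) ⁻¹' ((q α).rootSet ℂ)).Finite :=
    ((q α).rootSet_finite ℂ).preimage (Complex.ofReal_injective.injOn)
  exact measure_mono_null h1 (h2.measure_zero volume)

private theorem UnionB_card {k : ℕ} (g R : Fin k → ℝ) (hR : ∀ i, 1 ≤ R i) :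
    ∃ V : Finset (Fin k → ℤ), (∀ v, v ∈ V ↔ ∀ i, |(v i : ℝ) - g i| ≤ R i) ∧
      (V.card : ℝ) ≤ ∏ i, (2 * R i + 1) := by
  refine ⟨Fintype.piFinset fun i => Finset.Icc ⌈g i - R i⌉ ⌊g i + R i⌋, fun v => ?_, ?_⟩
  · rw [Fintype.mem_piFinset]
    refine forall_congr' fun i => ?_
    rw [Finset.mem_Icc, Int.ceil_le, Int.le_floor, abs_le]
    constructor
    · rintro ⟨h1, h2⟩
      exact ⟨by linarith, by linarith⟩
    · rintro ⟨h1, h2⟩
      exact ⟨by linarith, by linarith⟩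
  · rw [Fintype.card_piFinset]
    push_cast
    refine Finset.prod_le_prod (fun i _ => Nat.cast_nonneg _) fun i _ => ?_
    rw [Int.card_Icc]
    have h1 : (⌊g i + R i⌋ : ℝ) ≤ g i + R i := Int.floor_le _
    have h2 : g i - R i ≤ (⌈g i - R i⌉ : ℝ) := Int.le_ceil _
    have h3 := hR i
    have h4 : (((⌊g i + R i⌋ + 1 - ⌈g i - R i⌉).toNat : ℕ) : ℝ) =
        (((max (⌊g i + R i⌋ + 1 - ⌈g i - R i⌉) 0 : ℤ)) : ℝ) := by
      rw [← Int.toNat_eq_max]
      norm_cast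
    rw [h4, Int.cast_max]
    refine max_le ?_ ?_
    · push_cast
      linarith
    · push_cast
      linarith

theorem union_b (k D : ℕ) (T η ε₃ c₁ e : ℝ) (hT : 0 < T) (hη : 0 ≤ η) (hε : 0 ≤ ε₃) (hc : 0 ≤ c₁) (he : 0 ≤ e)
    (g R : Fin k → ℝ) (hR : ∀ i, 1 ≤ R i) (q : (Fin k → Fin (D + 1)) → Polynomial ℂ)
    (hq : ∀ α, (q α).natDegree ≤ D) (hne : ∃ α, q α ≠ 0)
    (hcount : ∀ c : (Fin k → Fin (D + 1)) → ℂ, c ≠ 0 →
      ∀ F : Finset (Fin k → ℤ), (∀ v ∈ F, (∀ i, |(v i : ℝ) - g i| ≤ R i) ∧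
          ‖ev c (fun i => ((v i : ℝ) - g i) / R i)‖ ≤ η * Real.sqrt (nr c)) →
        (F.card : ℝ) ≤ ε₃ * ∏ i, R i)
    (Ev : (Fin k → ℤ) → Set ℝ)
    (hEv : ∀ v : Fin k → ℤ, (∀ i, |(v i : ℝ) - g i| ≤ R i) → ∀ a b : ℝ, T ≤ a → a ≤ b → b ≤ 2 * T →
      (volume (Ev v ∩ Icc a b)).toReal ≤ c₁ * (b - a) + e) :
    (volume {t : ℝ | t ∈ Icc T (2 * T) ∧ ∃ v : Fin k → ℤ, (∀ i, |(v i : ℝ) - g i| ≤ R i) ∧
      ‖ev (qe q t) (fun i => ((v i : ℝ) - g i) / R i)‖ ≤ η * Real.sqrt (nr (qe q t)) ∧ t ∈ Ev v}).toReal ≤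
      c₁ * (T * (ε₃ * ∏ i, R i)) + (2 * D + 1) * e * ∏ i, (2 * R i + 1) := by
  classical
  obtain ⟨V, hV, hVc⟩ := UnionB_card g R hR
  obtain ⟨I, hI⟩ : ∃ I : (Fin k → ℤ) → Set ℝ, ∀ v, I v = {t : ℝ | t ∈ Icc T (2 * T) ∧
      ‖ev (qe q t) (fun i => ((v i : ℝ) - g i) / R i)‖ ≤ η * Real.sqrt (nr (qe q t))} :=
    ⟨_, fun _ => rfl⟩
  have hImeas : ∀ v, MeasurableSet (I v) := fun v => by
    rw [hI]
    exact UnionB_meas q _ T η
  have hIsub : ∀ v, I v ⊆ Icc T (2 * T) := fun v t ht => by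
    rw [hI] at ht
    exact ht.1
  have hT2 : T ≤ 2 * T := by linarith
  have hfin : ∀ S : Set ℝ, S ⊆ Icc T (2 * T) → volume S ≠ ⊤ := fun S hS =>
    ne_top_of_le_ne_top (by rw [Real.volume_Icc]; exact ENNReal.ofReal_ne_top) (measure_mono hS)
  have hRp : 0 ≤ ∏ i, R i := Finset.prod_nonneg fun i _ => by linarith [hR i]
  -- the set is a union
  have h1 : {t : ℝ | t ∈ Icc T (2 * T) ∧ ∃ v : Fin k → ℤ, (∀ i, |(v i : ℝ) - g i| ≤ R i) ∧
      ‖ev (qe q t) (fun i => ((v i : ℝ) - g i) / R i)‖ ≤ η * Real.sqrt (nr (qe q t)) ∧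
        t ∈ Ev v} ⊆ ⋃ v ∈ V, (Ev v ∩ I v) := by
    rintro t ⟨ht, v, hv1, hv2, hv3⟩
    refine Set.mem_iUnion₂.2 ⟨v, (hV v).2 hv1, hv3, ?_⟩
    rw [hI]
    exact ⟨ht, hv2⟩
  have h2 : (volume {t : ℝ | t ∈ Icc T (2 * T) ∧ ∃ v : Fin k → ℤ,
      (∀ i, |(v i : ℝ) - g i| ≤ R i) ∧
      ‖ev (qe q t) (fun i => ((v i : ℝ) - g i) / R i)‖ ≤ η * Real.sqrt (nr (qe q t)) ∧
        t ∈ Ev v}).toReal ≤ ∑ v ∈ V, (volume (Ev v ∩ I v)).toReal := by
    rw [← ENNReal.toReal_sum fun v _ => hfin _ (inter_subset_right.trans (hIsub v))]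
    refine ENNReal.toReal_mono ?_ ((measure_mono h1).trans (measure_biUnion_finset_le _ _))
    exact ENNReal.sum_ne_top.2 fun v _ => hfin _ (inter_subset_right.trans (hIsub v))
  have h3 : ∀ v ∈ V, (volume (Ev v ∩ I v)).toReal ≤
      c₁ * (volume (I v)).toReal + (2 * D + 1) * e := by
    intro v hv
    rw [hI]
    exact intv_q k D q hq _ η hη (Ev v) T (2 * T) c₁ e hT2 hc he
      fun a b ha hab hb => hEv v ((hV v).1 hv) a b ha hab hb
  -- the sum of the measures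
  have h4 : ∑ v ∈ V, (volume (I v)).toReal ≤ T * (ε₃ * ∏ i, R i) := by
    have h5 : ∑ v ∈ V, volume (I v) ≤ ENNReal.ofReal (T * (ε₃ * ∏ i, R i)) := by
      have h6 : ∑ v ∈ V, volume (I v) =
          ∫⁻ t in Icc T (2 * T), ∑ v ∈ V, (I v).indicator (fun _ => (1 : ENNReal)) t := by
        rw [lintegral_finsetSum _ fun v _ => measurable_const.indicator (hImeas v)]
        refine Finset.sum_congr rfl fun v _ => ?_
        rw [lintegral_indicator (hImeas v), setLIntegral_const, one_mul,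
          Measure.restrict_apply (hImeas v), inter_eq_self_of_subset_left (hIsub v)]
      rw [h6]
      have h7 : ∀ᵐ t ∂(volume.restrict (Icc T (2 * T))),
          ∑ v ∈ V, (I v).indicator (fun _ => (1 : ENNReal)) t ≤
            ENNReal.ofReal (ε₃ * ∏ i, R i) := by
        have h8 : ∀ᵐ t : ℝ, qe q t ≠ 0 := by
          rw [ae_iff]
          simp only [ne_eq, not_not]
          exact UnionB_null q hne
        filter_upwards [ae_restrict_of_ae h8] with t ht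
        have h9 : ∑ v ∈ V, (I v).indicator (fun _ => (1 : ENNReal)) t =
            (((V.filter fun v => t ∈ I v).card : ℕ) : ENNReal) := by
          rw [Finset.card_filter]
          push_cast
          refine Finset.sum_congr rfl fun v _ => ?_
          rw [Set.indicator_apply]
        rw [h9]
        have h10 := hcount (qe q t) ht (V.filter fun v => t ∈ I v) (by
          intro v hv
          rw [Finset.mem_filter] at hv
          refine ⟨(hV v).1 hv.1, ?_⟩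
          have h11 := hv.2
          rw [hI] at h11
          exact h11.2)
        rw [← ENNReal.ofReal_natCast]
        exact ENNReal.ofReal_le_ofReal h10
      refine (lintegral_mono_ae h7).trans ?_
      rw [setLIntegral_const, Real.volume_Icc, ← ENNReal.ofReal_mul (mul_nonneg hε hRp)]
      refine ENNReal.ofReal_le_ofReal (le_of_eq ?_)
      ring
    rw [← ENNReal.toReal_sum fun v _ => hfin _ (hIsub v)]
    refine ENNReal.toReal_le_of_le_ofReal (by positivity) h5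
  calc _ ≤ ∑ v ∈ V, (volume (Ev v ∩ I v)).toReal := h2
    _ ≤ ∑ v ∈ V, (c₁ * (volume (I v)).toReal + (2 * D + 1) * e) := Finset.sum_le_sum h3
    _ = c₁ * ∑ v ∈ V, (volume (I v)).toReal + V.card * ((2 * D + 1) * e) := by
        rw [Finset.sum_add_distrib, Finset.mul_sum, Finset.sum_const, nsmul_eq_mul]
    _ ≤ c₁ * (T * (ε₃ * ∏ i, R i)) + (2 * D + 1) * e * ∏ i, (2 * R i + 1) := by
        refine add_le_add (mul_le_mul_of_nonneg_left h4 hc) ?_
        rw [mul_comm ((V.card : ℕ) : ℝ)]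
        exact mul_le_mul_of_nonneg_left hVc (by positivity)

end Pool.Agent.Lib.MP_ec260d_ntB
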